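import Pool.Agent.V11321.OF.Stat

/-!
# Lower bound for the mean of the last passage value
-/

set_option autoImplicit false
set_option linter.unusedSectionVars false
set_option linter.unusedVariables false
set_option linter.unusedSimpArgs false

open Finset

namespace Pool.Agent.V11321.OF

theorem E3_swap {r a : ℝ} (m : ℕ) (F : Finset (ℕ × ℕ) → Finset ℕ → Finset ℕ → ℝ) :
    E3 r a a m m (fun A I J => F (A.image Prod.swap) J I) = E3 r a a m m F := by
  have hsw : (range m ×ˢ range m).image Prod.swap = range m ×ˢ range m := by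
    ext ⟨x, y⟩
    rw [mem_image_swap]
    simp only [mem_product, mem_range]
    tauto
  unfold E3
  conv_rhs => rw [← hsw]
  rw [EX_image r _ Prod.swap Prod.swap_injective]
  apply EX_congr
  intro A _
  rw [EX_comm]

/-- the event that the stationary path uses the bottom boundary for long is unlikely -/
theorem exit_prob {r a a' b' : ℝ} (hr0 : 0 ≤ r) (hr1 : r ≤ 1) (ha0 : 0 ≤ a) (haa : a ≤ a')
    (ha1 : a' ≤ 1) (hb0 : 0 ≤ b') (hb1 : b' ≤ 1) (hab : a * a = r * (1 - a) * (1 - a))
    (hab' : a' * b' = r * (1 - a') * (1 - b')) (m s : ℕ) (hs : s ≤ m) {t : ℝ} (ht : 0 < t)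
    (hgap : a' * m + b' * m + 6 * t < 2 * a * m + (a' - a) * s) :
    E3 r a a m m (fun A I J => ind (G A I J m m ≤ X1 s A I m m)) ≤ 3 * m / (2 * t ^ 2) := by
  have ha1' : a ≤ 1 := haa.trans ha1
  have hsub : range s ⊆ range m := range_subset_range.2 hs
  set T : ℝ := a' * (m - s) + b' * m + 3 * t with hT
  set Y : Finset (ℕ × ℕ) → Finset ℕ → ℕ := fun A I =>
    G (A.filter (fun p => s ≤ p.1)) (I.filter (fun x => s ≤ x)) ∅ m m with hY
  -- decomposition of the event
  have h1 : E3 r a a m m (fun A I J => ind (G A I J m m ≤ X1 s A I m m)) ≤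
      E3 r a a m m (fun A I J => ind (2 * t ≤ |(G A I J m m : ℝ) - (a * m + a * m)|)) +
      (E3 r a a m m (fun A I J => ind (t ≤ |((I ∩ range s).card : ℝ) - a * (range s).card|)) +
      E3 r a a m m (fun A I J => ind (T ≤ Y A I))) := by
    rw [← E3_add, ← E3_add]
    apply E3_mono hr0 hr1 ha0 ha1' ha0 ha1'
    intro A I J _ _ _
    refine (ind_mono (Q := _ ∨ (_ ∨ _)) ?_).trans ((ind_or _ _).trans
      (add_le_add_right (ind_or _ _) _))
    intro h
    by_contra hc
    push Not at hc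
    obtain ⟨c1, c2, c3⟩ := hc
    rw [abs_lt] at c1 c2
    rw [card_range] at c2
    have h' : (G A I J m m : ℝ) ≤ ((I ∩ range s).card : ℝ) + (Y A I : ℝ) := by
      rw [hY]
      exact_mod_cast h
    rw [hT] at c3
    nlinarith [c1.1, c2.2, c3, h']
  have h2 := conc_G hr0 hr1 ha0 ha1' ha0 ha1' hab m m ht
  have h3 : E3 r a a m m (fun A I J => ind (t ≤ |((I ∩ range s).card : ℝ) - a * (range s).card|))
      ≤ m / (4 * t ^ 2) := by
    rw [E3_I r a a m m (fun I => ind (t ≤ |((I ∩ range s).card : ℝ) - a * (range s).card|))]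
    refine (cheb_sub ha0 ha1' hsub ht).trans ?_
    rw [card_range]
    gcongr
  -- raise the density
  have h4 : E3 r a a m m (fun A I J => ind (T ≤ Y A I)) ≤
      E3 r a' b' m m (fun A I J => ind (T ≤ Y A I)) := by
    unfold E3
    simp only [EX_const]
    apply EX_mono hr0 hr1
    intro A _
    apply EX_mono_prob ha0 haa ha1
    intro I I' hI
    apply ind_mono
    intro h
    refine h.trans ?_
    rw [hY]
    exact_mod_cast G_mono_data (subset_refl _) (filter_subset_filter _ hI) (subset_refl _) m m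
  have h5 : E3 r a' b' m m (fun A I J => ind (T ≤ Y A I)) ≤
      E3 r a' b' m m (fun A I J => ind (2 * t ≤ |(G A I J m m : ℝ) - (a' * m + b' * m)|)) +
      E3 r a' b' m m (fun A I J =>
        ind (t ≤ |((I ∩ range s).card : ℝ) - a' * (range s).card|)) := by
    rw [← E3_add]
    apply E3_mono hr0 hr1 (ha0.trans haa) ha1 hb0 hb1
    intro A I J _ _ _
    refine (ind_mono ?_).trans (ind_or _ _)
    intro h
    by_contra hc
    push Not at hc
    obtain ⟨c1, c2⟩ := hc
    rw [abs_lt] at c1 c2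
    rw [card_range] at c2
    have h' : ((I ∩ range s).card : ℝ) + (Y A I : ℝ) ≤ (G A I J m m : ℝ) := by
      rw [hY]
      exact_mod_cast X1_le s A I J m m hs
    rw [hT] at h
    nlinarith [c1.2, c2.1, h, h']
  have h6 := conc_G hr0 hr1 (ha0.trans haa) ha1 hb0 hb1 hab' m m ht
  have h7 : E3 r a' b' m m (fun A I J =>
      ind (t ≤ |((I ∩ range s).card : ℝ) - a' * (range s).card|)) ≤ m / (4 * t ^ 2) := by
    rw [E3_I r a' b' m m (fun I => ind (t ≤ |((I ∩ range s).card : ℝ) - a' * (range s).card|))]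
    refine (cheb_sub (ha0.trans haa) ha1 hsub ht).trans ?_
    rw [card_range]
    gcongr
  have h8 : ((m : ℝ) + m) / (4 * t ^ 2) + (m / (4 * t ^ 2) + ((m + m) / (4 * t ^ 2) +
      m / (4 * t ^ 2))) = 3 * m / (2 * t ^ 2) := by
    field_simp
    ring
  rw [← h8]
  refine h1.trans ?_
  refine add_le_add h2 (add_le_add h3 ?_)
  exact (h4.trans h5).trans (add_le_add h6 h7)

theorem EL_ge {r : ℝ} (hr0 : 0 < r) (hr1 : r ≤ 1) {δ : ℝ} (hδ0 : 0 < δ) (hδ1 : δ ≤ 1) :
    ∃ m₀ : ℕ, ∀ m : ℕ, m₀ ≤ m → (2 * dens r - δ) * m ≤ EL r m := by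
  set a := dens r with ha
  have ha0 : 0 < a := dens_pos hr0
  have ha1 : a ≤ 1 / 2 := dens_le_half hr1
  have hab := dens_sq hr0.le
  rw [← ha] at hab
  set d : ℝ := δ / 2 with hd
  have hd0 : 0 < d := by positivity
  have hd1 : d ≤ 1 / 2 := by linarith
  set ε : ℝ := a * d / 2 with hε
  have hε0 : 0 < ε := by positivity
  have hε1 : ε ≤ 1 / 4 := by nlinarith
  set a' : ℝ := a + ε with ha'
  have hD : 0 < a' + r * (1 - a') := by
    have : 0 ≤ r * (1 - a') := mul_nonneg hr0.le (by linarith)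
    linarith
  set b' : ℝ := r * (1 - a') / (a' + r * (1 - a')) with hb'
  have hb0 : 0 ≤ b' := div_nonneg (mul_nonneg hr0.le (by linarith)) hD.le
  have hb1 : b' ≤ 1 := by rw [hb', div_le_one hD]; linarith
  have hab' : a' * b' = r * (1 - a') * (1 - b') := by
    rw [hb']
    field_simp
    ring
  have hsum : a' + b' - 2 * a ≤ ε ^ 2 / a := by
    have e1 : (a' + b' - 2 * a) * (a' + r * (1 - a')) = ε ^ 2 * (1 - r) := by
      rw [hb']
      rw [show (a' + r * (1 - a') / (a' + r * (1 - a')) - 2 * a) * (a' + r * (1 - a')) =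
        (a' - 2 * a) * (a' + r * (1 - a')) + r * (1 - a') by field_simp; ring]
      rw [ha']
      linear_combination (-1) * hab
    have e2 : a' + b' - 2 * a = ε ^ 2 * (1 - r) / (a' + r * (1 - a')) := by
      rw [eq_div_iff hD.ne', e1]
    rw [e2]
    have e3 : a ≤ a' + r * (1 - a') := by
      have : 0 ≤ r * (1 - a') := mul_nonneg hr0.le (by linarith)
      linarith
    calc ε ^ 2 * (1 - r) / (a' + r * (1 - a')) ≤ ε ^ 2 * (1 - r) / a := by
          apply div_le_div_of_nonneg_left _ ha0 e3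
          exact mul_nonneg (sq_nonneg _) (by linarith)
      _ ≤ ε ^ 2 / a := by
          apply div_le_div_of_nonneg_right _ ha0.le
          nlinarith [sq_nonneg ε]
  set c : ℝ := a * d ^ 2 / 48 with hc
  have hc0 : 0 < c := by positivity
  obtain ⟨m₀, hm₀⟩ := exists_nat_gt (max (4 / d) (6 / (c ^ 2 * d)))
  refine ⟨m₀ + 1, fun m hm => ?_⟩
  have hm1 : (m₀ : ℝ) < m := by exact_mod_cast (by omega : m₀ < m)
  have hm2 : 4 / d < m := (le_max_left _ _).trans_lt (hm₀.trans hm1)
  have hm3 : 6 / (c ^ 2 * d) < m := (le_max_right _ _).trans_lt (hm₀.trans hm1)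
  have hmpos : (0 : ℝ) < m := lt_trans (by positivity) hm2
  have hm2' : 4 < d * m := by rw [div_lt_iff₀ hd0] at hm2; linarith
  have hm3' : 6 / c ^ 2 < d * m := by
    rw [div_lt_iff₀ (by positivity)] at hm3 ⊢
    nlinarith
  set s : ℕ := ⌊d * m⌋₊ with hs
  have hs1 : (s : ℝ) ≤ d * m := Nat.floor_le (by positivity)
  have hs2 : d * m - 1 < s := by
    have := Nat.lt_floor_add_one (d * m)
    rw [← hs] at this
    linarith
  have hsm : s ≤ m := by
    have : (s : ℝ) ≤ m := by nlinarith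
    exact_mod_cast this
  set t : ℝ := c * m with ht
  have ht0 : 0 < t := by positivity
  have hgap : a' * m + b' * m + 6 * t < 2 * a * m + (a' - a) * s := by
    have e1 : (a' + b' - 2 * a) * m ≤ ε ^ 2 / a * m := mul_le_mul_of_nonneg_right hsum hmpos.le
    have e2 : ε ^ 2 / a = a * d ^ 2 / 4 := by
      rw [hε]
      field_simp
      ring
    have e3 : (a' - a) * s > (a * d / 2) * (d * m - 1) := by
      rw [ha', add_sub_cancel_left, hε]
      exact mul_lt_mul_of_pos_left hs2 (by positivity)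
    have e4 : 6 * t = a * d ^ 2 / 8 * m := by rw [ht, hc]; ring
    rw [e2] at e1
    rw [e4]
    have e5 : a * d / 2 < a * d / 8 * (d * m) := by
      have : 0 < a * d / 8 := by positivity
      nlinarith
    nlinarith [e1, e3, e5]
  have hp1 := exit_prob hr0.le hr1 ha0.le (by linarith : a ≤ a') (by linarith : a' ≤ 1) hb0 hb1
    hab hab' m s hsm ht0 hgap
  have hp2 : E3 r a a m m (fun A I J => ind (G A I J m m ≤ X1 s (A.image Prod.swap) J m m)) ≤
      3 * m / (2 * t ^ 2) := by
    refine le_trans (le_of_eq ?_) hp1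
    rw [← E3_swap]
    apply E3_congr
    intro A I J _ _ _
    rw [G_swap, show (A.image Prod.swap).image Prod.swap = A by rw [image_image]; simp]
  have hG := mean_G hab m m
  have hmain : E3 r a a m m (fun A I J => (G A I J m m : ℝ)) ≤
      E3 r a a m m (fun A I J => ((s : ℝ) + (G A ∅ ∅ m m : ℝ)) +
        (2 * m * ind (G A I J m m ≤ X1 s A I m m) +
        2 * m * ind (G A I J m m ≤ X1 s (A.image Prod.swap) J m m))) := by
    apply E3_mono hr0.le hr1 ha0.le (by linarith) ha0.le (by linarith)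
    intro A I J _ _ _
    have hb : (G A I J m m : ℝ) ≤ 2 * m := by
      have := G_le_add (A := A) (I := I) (J := J) m m
      have h' : (G A I J m m : ℝ) ≤ ((m + m : ℕ) : ℝ) := by exact_mod_cast this
      push_cast at h'
      linarith
    have p1 := ind_nonneg (G A I J m m ≤ X1 s A I m m)
    have p2 := ind_nonneg (G A I J m m ≤ X1 s (A.image Prod.swap) J m m)
    have p3 : (0 : ℝ) ≤ s := Nat.cast_nonneg _
    have p4 : (0 : ℝ) ≤ G A ∅ ∅ m m := Nat.cast_nonneg _
    have p5 : 0 ≤ 2 * (m : ℝ) * ind (G A I J m m ≤ X1 s A I m m) := by positivity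
    have p6 : 0 ≤ 2 * (m : ℝ) * ind (G A I J m m ≤ X1 s (A.image Prod.swap) J m m) := by
      positivity
    rcases exit_lemma s A I J m m with h | ⟨h, _⟩ | ⟨h, _⟩
    · have h' : (G A I J m m : ℝ) ≤ (s : ℝ) + (G A ∅ ∅ m m : ℝ) := by exact_mod_cast h
      linarith
    · rw [ind_true h]
      linarith
    · rw [ind_true h]
      linarith
  rw [E3_add, E3_add, E3_add, E3_mul, E3_mul, E3_const, hG,
    E3_A r a a m m (fun A => (G A ∅ ∅ m m : ℝ))] at hmain
  have hfin : 2 * (m : ℝ) * (3 * m / (2 * t ^ 2)) + 2 * m * (3 * m / (2 * t ^ 2)) = 6 / c ^ 2 := by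
    rw [ht]
    field_simp
    ring
  have q1 := mul_le_mul_of_nonneg_left hp1 (by positivity : (0 : ℝ) ≤ 2 * m)
  have q2 := mul_le_mul_of_nonneg_left hp2 (by positivity : (0 : ℝ) ≤ 2 * m)
  unfold EL
  have q3 : a * m + a * m ≤ s + EX r (range m ×ˢ range m) (fun A => (G A ∅ ∅ m m : ℝ)) +
      6 / c ^ 2 := by
    linarith
  have q4 : δ * (m : ℝ) = d * m + d * m := by rw [hd]; ring
  linarith

end Pool.Agent.V11321.OF
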