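import Pool.Agent.V11321.OF.Model
import Pool.Agent.V11321.OF.Lower

/-!
# The asymptotics of the flow
-/

set_option autoImplicit false
set_option linter.unusedSectionVars false
set_option linter.unusedVariables false

open Finset Filter Topology

namespace Pool.Agent.V11321.OF

theorem r_mem {p : ℝ} (h0 : 0 < p) (h1 : p < 1) : 0 < 1 - p ^ 2 ∧ 1 - p ^ 2 ≤ 1 := by
  constructor
  · nlinarith
  · nlinarith [sq_nonneg p]

theorem lower_lim {p : ℝ} (h0 : 0 < p) (h1 : p < 1) {δ : ℝ} (hδ : 0 < δ) :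
    ∃ N : ℕ, ∀ n : ℕ, N ≤ n → dens (1 - p ^ 2) - δ ≤ 1 - EV n p / (2 * n) := by
  obtain ⟨hr0, hr1⟩ := r_mem h0 h1
  set r := 1 - p ^ 2 with hr
  set d := min δ 1 with hd
  have hd0 : 0 < d := lt_min hδ one_pos
  have hd1 : d ≤ 1 := min_le_right _ _
  have hdδ : d ≤ δ := min_le_left _ _
  obtain ⟨m₀, hm₀⟩ := EL_ge hr0 hr1 hd0 hd1
  obtain ⟨k, hk⟩ := exists_nat_gt (2 / d)
  refine ⟨m₀ + k + 1, fun n hn => ?_⟩
  obtain ⟨M, rfl⟩ : ∃ M, n = M + 1 := ⟨n - 1, by omega⟩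
  have h2 := hm₀ M (by omega)
  have h3 := EV_le h0.le h1.le M
  rw [← hr] at h3
  have hM : (0 : ℝ) < (M : ℝ) + 1 := by positivity
  have hkM : 2 / d < (M : ℝ) + 1 := by
    refine hk.trans_le ?_
    have : k ≤ M + 1 := by omega
    exact_mod_cast this
  rw [div_lt_iff₀ hd0] at hkM
  have ha := dens_nonneg r
  have ha1 := dens_le_half hr1
  push_cast
  rw [le_sub_iff_add_le, ← le_sub_iff_add_le', div_le_iff₀ (by positivity)]
  have hM0 : (0 : ℝ) ≤ M := Nat.cast_nonneg _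
  nlinarith [mul_nonneg hd0.le hM0]

theorem log_bound {s : ℝ} (hs0 : 0 < s) (hs1 : s ≤ 1 / 48) :
    -(11 * s) < 2 * Real.log (1 - 4 * s) := by
  have h1 : 0 < 1 - 4 * s := by linarith
  have h2 := Real.one_sub_inv_le_log_of_pos h1
  have h3 : 1 - (1 - 4 * s)⁻¹ = -(4 * s) / (1 - 4 * s) := by
    field_simp
    ring
  rw [h3] at h2
  have h4 : -(11 * s) / 2 < -(4 * s) / (1 - 4 * s) := by
    rw [div_lt_div_iff₀ (by norm_num) h1]
    nlinarith
  linarith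

theorem prob_small {α s : ℝ} (hα : 0 < α) (hs0 : 0 < s) (hs1 : s < 1 / 48)
    (hlog : 11 / α < Real.log (1 / (48 * s))) {δ : ℝ} (hδ : 0 < δ) :
    ∃ N : ℕ, ∀ M : ℕ, N ≤ M →
      EX (s ^ 2) ((range M ×ˢ range M) ×ˢ (univ : Finset Bool))
        (fun K => ind (BadEv K ⌈α * s * (M + 1)⌉₊)) ≤ δ := by
  set t : ℝ := 1 / (48 * s) with ht
  set θ : ℝ := 1 - 4 * s with hθ
  have ht1 : 1 ≤ t := by
    rw [ht, le_div_iff₀ (by positivity)]
    linarith
  have hθ0 : 3 / 4 ≤ θ := by rw [hθ]; linarith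
  have hθ1 : θ < 1 := by rw [hθ]; linarith
  have hlogt : 0 < Real.log t := lt_trans (by positivity) hlog
  have hlogθ := log_bound hs0 hs1.le
  rw [← hθ] at hlogθ
  set c : ℝ := α * s * Real.log t + 2 * Real.log θ with hc
  have hc0 : 0 < c := by
    have : 11 < α * Real.log t := by
      rw [div_lt_iff₀ hα] at hlog
      linarith
    rw [hc]
    nlinarith
  have hsmall : s ^ 2 * 4 * ((1 / (1 - θ)) ^ 2 + t * (6 * (1 / (1 - θ)) + 9)) ≤ 1 / 2 := by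
    have e1 : 1 - θ = 4 * s := by rw [hθ]; ring
    rw [e1, ht]
    have e2 : s ^ 2 * 4 * ((1 / (4 * s)) ^ 2 + 1 / (48 * s) * (6 * (1 / (4 * s)) + 9)) =
        1 / 4 + 1 / 8 + 3 / 4 * s := by
      field_simp
      ring
    rw [e2]
    linarith
  -- the bound tends to zero
  have hlim : Tendsto (fun M : ℕ => 16 * ((M : ℝ) ^ 2 * Real.exp (-c) ^ M)) atTop (𝓝 0) := by
    have := tendsto_pow_const_mul_const_pow_of_abs_lt_one 2 (r := Real.exp (-c)) (by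
      rw [abs_of_pos (Real.exp_pos _), Real.exp_lt_one_iff]
      linarith)
    simpa using this.const_mul 16
  have hev := (hlim.eventually (gt_mem_nhds hδ)).and (eventually_ge_atTop 1)
  obtain ⟨N, hN⟩ := eventually_atTop.1 hev
  refine ⟨N, fun M hM => ?_⟩
  obtain ⟨h1, h2⟩ := hN M hM
  have hs2 : s ^ 2 ≤ 1 := by nlinarith
  have hb : 1 ≤ ⌈α * s * (M + 1)⌉₊ := Nat.one_le_iff_ne_zero.2 (by
    have : 0 < ⌈α * s * ((M : ℝ) + 1)⌉₊ := Nat.ceil_pos.2 (by positivity)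
    omega)
  refine (prob_bad (sq_nonneg s) hs2 ht1 hθ0 hθ1 hsmall M _ hb).trans ?_
  refine le_trans ?_ h1.le
  have ht0 : 0 < t := by linarith
  have hθp : 0 < θ := by linarith
  have hE : Real.exp (c * M) ≤ t ^ ⌈α * s * ((M : ℝ) + 1)⌉₊ * θ ^ (2 * M) := by
    have e1 : t ^ ⌈α * s * ((M : ℝ) + 1)⌉₊ =
        Real.exp (⌈α * s * ((M : ℝ) + 1)⌉₊ * Real.log t) := by
      rw [Real.exp_nat_mul, Real.exp_log ht0]
    have e2 : θ ^ (2 * M) = Real.exp (((2 * M : ℕ) : ℝ) * Real.log θ) := by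
      rw [Real.exp_nat_mul, Real.exp_log hθp]
    rw [e1, e2, ← Real.exp_add, Real.exp_le_exp]
    have e3 : α * s * ((M : ℝ) + 1) ≤ ⌈α * s * ((M : ℝ) + 1)⌉₊ := Nat.le_ceil _
    have e4 := mul_le_mul_of_nonneg_right e3 hlogt.le
    have e5 : 0 ≤ α * s * Real.log t := by positivity
    rw [hc]
    push_cast
    nlinarith
  calc 16 * (M : ℝ) ^ 2 / (t ^ ⌈α * s * ((M : ℝ) + 1)⌉₊ * θ ^ (2 * M))
      ≤ 16 * (M : ℝ) ^ 2 / Real.exp (c * M) := by
        apply div_le_div_of_nonneg_left (by positivity) (Real.exp_pos _) hE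
    _ = 16 * ((M : ℝ) ^ 2 * Real.exp (-c) ^ M) := by
        rw [← Real.exp_nat_mul, div_eq_mul_inv, ← Real.exp_neg]
        rw [show (M : ℝ) * -c = -(c * M) by ring]
        ring

theorem upper_lim {α s : ℝ} (hα : 0 < α) (hs0 : 0 < s) (hs1 : s < 1 / 48)
    (hlog : 11 / α < Real.log (1 / (48 * s))) {δ : ℝ} (hδ : 0 < δ) :
    ∃ N : ℕ, ∀ n : ℕ, N ≤ n →
      1 - EV n (1 - s ^ 2) / (2 * n) ≤ dens (1 - (1 - s ^ 2) ^ 2) + α * s / 2 + δ := by
  have hs2 : s ^ 2 < 1 := by nlinarith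
  have hs3 : 0 < s ^ 2 := by positivity
  have hp0 : 0 < 1 - s ^ 2 := by linarith
  have hp1 : 1 - s ^ 2 < 1 := by linarith
  obtain ⟨hr0, hr1⟩ := r_mem hp0 hp1
  set r := 1 - (1 - s ^ 2) ^ 2 with hr
  obtain ⟨N, hN⟩ := prob_small hα hs0 hs1 hlog (half_pos hδ)
  obtain ⟨k, hk⟩ := exists_nat_gt (5 / δ)
  refine ⟨N + k + 2, fun n hn => ?_⟩
  obtain ⟨M, rfl⟩ : ∃ M, n = M + 1 := ⟨n - 1, by omega⟩
  have h1 := hN M (by omega)
  have h2 := EV_ge hp0.le hp1.le M (by omega) ⌈α * s * ((M : ℝ) + 1)⌉₊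
  rw [show 1 - (1 - s ^ 2) = s ^ 2 by ring] at h2
  rw [← hr] at h2
  have h3 := EL_le hr0.le hr1 M
  have hb : (⌈α * s * ((M : ℝ) + 1)⌉₊ : ℝ) < α * s * ((M : ℝ) + 1) + 1 :=
    Nat.ceil_lt_add_one (by positivity)
  set P := EX (s ^ 2) ((range M ×ˢ range M) ×ˢ (univ : Finset Bool))
        (fun K => ind (BadEv K ⌈α * s * ((M : ℝ) + 1)⌉₊)) with hP
  have hkM : 5 / δ < (M : ℝ) + 1 := by
    refine hk.trans_le ?_
    have : k ≤ M + 1 := by omega
    exact_mod_cast this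
  rw [div_lt_iff₀ hδ] at hkM
  have ha := dens_nonneg r
  have hM0 : (0 : ℝ) ≤ M := Nat.cast_nonneg _
  have hPM : 2 * (M : ℝ) * P ≤ 2 * M * (δ / 2) := mul_le_mul_of_nonneg_left h1 (by positivity)
  push_cast
  rw [sub_le_iff_le_add, ← sub_le_iff_le_add', le_div_iff₀ (by positivity)]
  nlinarith

/-- bounds for the density at small `q` -/
theorem dens_bounds {s : ℝ} (hs0 : 0 < s) (hs1 : s ≤ 1) :
    dens (1 - (1 - s ^ 2) ^ 2) ≤ Real.sqrt 2 * s ∧
    Real.sqrt 2 * s * (1 - 2 * s) ≤ dens (1 - (1 - s ^ 2) ^ 2) := by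
  have hs2 : s ^ 2 ≤ 1 := by nlinarith
  have e1 : 1 - (1 - s ^ 2) ^ 2 = (2 - s ^ 2) * s ^ 2 := by ring
  have e2 : Real.sqrt (1 - (1 - s ^ 2) ^ 2) = Real.sqrt (2 - s ^ 2) * s := by
    rw [e1, Real.sqrt_mul (by linarith), Real.sqrt_sq hs0.le]
  have hle : Real.sqrt (2 - s ^ 2) ≤ Real.sqrt 2 := Real.sqrt_le_sqrt (by nlinarith)
  have h2 : Real.sqrt 2 ≤ 3 / 2 := by
    rw [Real.sqrt_le_left (by norm_num)]
    norm_num
  have h2p : 0 < Real.sqrt 2 := Real.sqrt_pos.2 (by norm_num)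
  have hge : Real.sqrt 2 * (1 - s ^ 2 / 2) ≤ Real.sqrt (2 - s ^ 2) := by
    apply Real.le_sqrt_of_sq_le
    rw [mul_pow, Real.sq_sqrt (by norm_num)]
    nlinarith [sq_nonneg s]
  have hS : 0 ≤ Real.sqrt (2 - s ^ 2) := Real.sqrt_nonneg _
  unfold dens
  rw [e2]
  constructor
  · rw [div_le_iff₀ (by positivity)]
    have : Real.sqrt (2 - s ^ 2) * s ≤ Real.sqrt 2 * s := mul_le_mul_of_nonneg_right hle hs0.le
    have : 0 ≤ Real.sqrt 2 * s * (Real.sqrt (2 - s ^ 2) * s) := by positivity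
    linarith
  · rw [le_div_iff₀ (by positivity)]
    have hX : Real.sqrt (2 - s ^ 2) * s ≤ 3 / 2 * s :=
      mul_le_mul_of_nonneg_right (hle.trans h2) hs0.le
    by_cases hneg : 1 - 2 * s ≤ 0
    · have : Real.sqrt 2 * s * (1 - 2 * s) * (1 + Real.sqrt (2 - s ^ 2) * s) ≤ 0 := by
        apply mul_nonpos_of_nonpos_of_nonneg
        · exact mul_nonpos_of_nonneg_of_nonpos (by positivity) hneg
        · positivity
      have : 0 ≤ Real.sqrt (2 - s ^ 2) * s := by positivity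
      linarith
    · push Not at hneg
      have k1 : (1 - 2 * s) * (1 + Real.sqrt (2 - s ^ 2) * s) ≤ 1 - s ^ 2 / 2 := by
        have : (1 - 2 * s) * (1 + Real.sqrt (2 - s ^ 2) * s) ≤ (1 - 2 * s) * (1 + 3 / 2 * s) :=
          mul_le_mul_of_nonneg_left (by linarith) hneg.le
        nlinarith
      calc Real.sqrt 2 * s * (1 - 2 * s) * (1 + Real.sqrt (2 - s ^ 2) * s)
          = Real.sqrt 2 * s * ((1 - 2 * s) * (1 + Real.sqrt (2 - s ^ 2) * s)) := by ring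
        _ ≤ Real.sqrt 2 * s * (1 - s ^ 2 / 2) := mul_le_mul_of_nonneg_left k1 (by positivity)
        _ = Real.sqrt 2 * (1 - s ^ 2 / 2) * s := by ring
        _ ≤ Real.sqrt (2 - s ^ 2) * s := mul_le_mul_of_nonneg_right hge hs0.le

/-- the main estimate -/
theorem main {ε : ℝ} (hε : 0 < ε) : ∃ p₀ : ℝ, 0 < p₀ ∧ p₀ < 1 ∧ ∀ p : ℝ, p₀ < p → p < 1 →
    ∃ N : ℕ, ∀ n : ℕ, N ≤ n →
      |(1 - EV n p / (2 * n)) / Real.sqrt (2 * (1 - p)) - 1| ≤ ε := by
  set α : ℝ := ε with hα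
  set s₀ : ℝ := min (1 / 48) (min (Real.exp (-(11 / α)) / 48) (ε / 4)) with hs₀
  have hs₀0 : 0 < s₀ := lt_min (by norm_num) (lt_min (by positivity) (by positivity))
  have hs₀1 : s₀ ≤ 1 / 48 := min_le_left _ _
  have hs₀2 : s₀ ≤ Real.exp (-(11 / α)) / 48 := (min_le_right _ _).trans (min_le_left _ _)
  have hs₀3 : s₀ ≤ ε / 4 := (min_le_right _ _).trans (min_le_right _ _)
  refine ⟨1 - s₀ ^ 2, by nlinarith, by nlinarith, fun p hp hp1 => ?_⟩
  set s : ℝ := Real.sqrt (1 - p) with hs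
  have hs0 : 0 < s := Real.sqrt_pos.2 (by linarith)
  have hsq : s ^ 2 = 1 - p := Real.sq_sqrt (by linarith)
  have hss : s < s₀ := by
    rw [hs, Real.sqrt_lt' hs₀0]
    linarith
  have hp' : p = 1 - s ^ 2 := by rw [hsq]; ring
  have hs1 : s < 1 / 48 := hss.trans_le hs₀1
  have hlog : 11 / α < Real.log (1 / (48 * s)) := by
    rw [Real.lt_log_iff_exp_lt (by positivity), lt_div_iff₀ (by positivity)]
    have h1 : s < Real.exp (-(11 / α)) / 48 := hss.trans_le hs₀2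
    rw [Real.exp_neg, lt_div_iff₀ (by norm_num), lt_inv_comm₀ (by positivity) (Real.exp_pos _),
      lt_inv_comm₀ (Real.exp_pos _) (by positivity)] at h1
    have h2 := Real.exp_pos (11 / α)
    have h3 : s * 48 * Real.exp (11 / α) < 1 := by
      have := mul_lt_mul_of_pos_right h1 h2
      rwa [inv_mul_cancel₀ h2.ne'] at this
    linarith
  have hden : Real.sqrt (2 * (1 - p)) = Real.sqrt 2 * s := by
    rw [Real.sqrt_mul (by norm_num)]
  have h2p : 0 < Real.sqrt 2 := Real.sqrt_pos.2 (by norm_num)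
  have h2l : 1 ≤ Real.sqrt 2 := by
    rw [Real.one_le_sqrt]; norm_num
  have hD : 0 < Real.sqrt 2 * s := by positivity
  set δ : ℝ := ε / 2 * (Real.sqrt 2 * s) with hδ
  have hδ0 : 0 < δ := by positivity
  obtain ⟨N₁, hN₁⟩ := lower_lim (p := p) (by nlinarith) hp1 hδ0
  have hα0 : 0 < α := hε
  obtain ⟨N₂, hN₂⟩ := upper_lim hα0 hs0 hs1 hlog hδ0
  refine ⟨max N₁ N₂, fun n hn => ?_⟩
  have h1 := hN₁ n ((le_max_left _ _).trans hn)
  have h2 := hN₂ n ((le_max_right _ _).trans hn)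
  obtain ⟨h3, h4⟩ := dens_bounds hs0 (by linarith)
  rw [← hp'] at h2 h3 h4
  rw [hden, abs_le]
  have h5 : s * 2 ≤ ε / 2 := by linarith
  have h6 : ε / 2 * s ≤ ε / 2 * (Real.sqrt 2 * s) := by
    apply mul_le_mul_of_nonneg_left _ (by positivity)
    nlinarith
  constructor
  · rw [neg_le_sub_iff_le_add, ← sub_le_iff_le_add, le_div_iff₀ hD]
    nlinarith
  · rw [sub_le_iff_le_add, div_le_iff₀ hD]
    nlinarith

/-- the mean of the flow converges when the flow converges in `L¹` -/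
theorem EV_tendsto {p w : ℝ} (h0 : 0 < p) (h1 : p < 1)
    (h : Tendsto (fun n : ℕ => EX p (edges n) (fun O => |(V n O : ℝ) / (2 * n) - w|)) atTop (𝓝 0)) :
    Tendsto (fun n : ℕ => EV n p / (2 * n)) atTop (𝓝 w) := by
  rw [tendsto_iff_norm_sub_tendsto_zero]
  refine squeeze_zero (fun n => norm_nonneg _) (fun n => ?_) h
  rw [Real.norm_eq_abs]
  have e : EV n p / (2 * n) - w = EX p (edges n) (fun O => (V n O : ℝ) / (2 * n) - w) := by
    rw [EX_sub, EX_const]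
    congr 1
    unfold EV
    rw [div_eq_inv_mul, ← EX_mul]
    apply EX_congr
    intro O _
    rw [div_eq_inv_mul]
  rw [e]
  exact abs_EX_le h0.le h1.le _

theorem lower_v {p w : ℝ} (h0 : 0 < p) (h1 : p < 1)
    (h : Tendsto (fun n : ℕ => EX p (edges n) (fun O => |(V n O : ℝ) / (2 * n) - w|)) atTop (𝓝 0)) :
    dens (1 - p ^ 2) ≤ 1 - w := by
  have h2 := (EV_tendsto h0 h1 h).const_sub 1
  apply le_of_forall_pos_le_add
  intro δ hδ
  obtain ⟨N, hN⟩ := lower_lim h0 h1 hδ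
  have := ge_of_tendsto h2 (eventually_atTop.2 ⟨N, hN⟩)
  linarith

theorem main_v (v : ℝ → ℝ) (h : ∀ p : ℝ, 0 < p → p < 1 →
    Tendsto (fun n : ℕ => EX p (edges n) (fun O => |(V n O : ℝ) / (2 * n) - v p|)) atTop (𝓝 0)) :
    Tendsto (fun p => (1 - v p) / Real.sqrt (2 * (1 - p))) (𝓝[<] 1) (𝓝 1) := by
  rw [Metric.tendsto_nhds]
  intro ε hε
  obtain ⟨p₀, hp0, hp1, hmain⟩ := main (half_pos hε)
  have : ∀ᶠ p in 𝓝[<] (1 : ℝ), p₀ < p ∧ p < 1 := by
    apply Filter.eventually_of_mem (Ioo_mem_nhdsLT hp1)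
    exact fun p hp => hp
  filter_upwards [this] with p hp
  obtain ⟨N, hN⟩ := hmain p hp.1 hp.2
  have h2 : Tendsto (fun n : ℕ => |(1 - EV n p / (2 * n)) / Real.sqrt (2 * (1 - p)) - 1|) atTop
      (𝓝 |(1 - v p) / Real.sqrt (2 * (1 - p)) - 1|) :=
    ((((EV_tendsto (hp0.trans hp.1) hp.2 (h p (hp0.trans hp.1) hp.2)).const_sub 1).div_const
      _).sub_const 1).abs
  have h3 := le_of_tendsto h2 (eventually_atTop.2 ⟨N, hN⟩)
  rw [Real.dist_eq]
  linarith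

end Pool.Agent.V11321.OF
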