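import Pool.Agent.V11321.OF.LPP

/-!
# The stationary version of strict last passage percolation
-/

set_option autoImplicit false
set_option linter.unusedSectionVars false
set_option linter.unusedVariables false
set_option linter.unusedSimpArgs false

open Finset

namespace Pool.Agent.V11321.OF

theorem row_succ_ff {I W : Finset ℕ} (b : Bool) {M : ℕ} (hI : I ⊆ range M) (hW : W ⊆ range M) :
    row I b W (M + 1) = (if fI false (row I b W M).2 false then insert M (row I b W M).1
      else (row I b W M).1, fJ false (row I b W M).2 false) := by
  have h1 : M ∉ I := fun h => by have := mem_range.1 (hI h); omega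
  have h2 : M ∉ W := fun h => by have := mem_range.1 (hW h); omega
  rw [row]
  simp only [h1, h2, decide_false]

theorem row_succ_tf {I W : Finset ℕ} (b : Bool) {M : ℕ} (hI : I ⊆ range M) (hW : W ⊆ range M) :
    row (insert M I) b W (M + 1) = (if fI true (row I b W M).2 false then
      insert M (row I b W M).1 else (row I b W M).1, fJ true (row I b W M).2 false) := by
  have h1 : M ∈ insert M I := mem_insert_self M I
  have h2 : M ∉ W := fun h => by have := mem_range.1 (hW h); omega
  rw [row, row_congr (I := insert M I) (I' := I) (W := W) (W' := W) b
    (fun i hi => by simp [mem_insert, show i ≠ M by omega]) (fun i hi => Iff.rfl)]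
  simp only [h1, h2, decide_false, decide_true]

theorem row_succ_ft {I W : Finset ℕ} (b : Bool) {M : ℕ} (hI : I ⊆ range M) (hW : W ⊆ range M) :
    row I b (insert M W) (M + 1) = (if fI false (row I b W M).2 true then
      insert M (row I b W M).1 else (row I b W M).1, fJ false (row I b W M).2 true) := by
  have h1 : M ∉ I := fun h => by have := mem_range.1 (hI h); omega
  have h2 : M ∈ insert M W := mem_insert_self M W
  rw [row, row_congr (I := I) (I' := I) (W := insert M W) (W' := W) b
    (fun i hi => Iff.rfl) (fun i hi => by simp [mem_insert, show i ≠ M by omega])]
  simp only [h1, h2, decide_false, decide_true]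

theorem row_succ_tt {I W : Finset ℕ} (b : Bool) {M : ℕ} (hI : I ⊆ range M) (hW : W ⊆ range M) :
    row (insert M I) b (insert M W) (M + 1) = (if fI true (row I b W M).2 true then
      insert M (row I b W M).1 else (row I b W M).1, fJ true (row I b W M).2 true) := by
  have h1 : M ∈ insert M I := mem_insert_self M I
  have h2 : M ∈ insert M W := mem_insert_self M W
  rw [row, row_congr (I := insert M I) (I' := I) (W := insert M W) (W' := W) b
    (fun i hi => by simp [mem_insert, show i ≠ M by omega])
    (fun i hi => by simp [mem_insert, show i ≠ M by omega])]
  simp only [h1, h2, decide_true]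

/-- the function of the increments after the last site -/
def step1 (M : ℕ) (F : Finset ℕ → Bool → ℝ) (i w : Bool) (K : Finset ℕ) (c : Bool) : ℝ :=
  F (if fI i c w then insert M K else K) (fJ i c w)

theorem burke_row {a b r : ℝ} (hab : a * b = r * (1 - a) * (1 - b)) (M : ℕ)
    (F : Finset ℕ → Bool → ℝ) :
    EX r (range M) (fun W => EX a (range M) (fun I =>
      (1 - b) * F (row I false W M).1 (row I false W M).2 +
        b * F (row I true W M).1 (row I true W M).2)) =
    EX a (range M) (fun K => (1 - b) * F K false + b * F K true) := by
  induction M generalizing F with
  | zero => simp [EX_empty, row]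
  | succ M ih =>
    rw [range_add_one, EX_insert r (by simp)]
    have e : ∀ W, W ⊆ range M → EX a (insert M (range M)) (fun I =>
        (1 - b) * F (row I false W (M + 1)).1 (row I false W (M + 1)).2 +
        b * F (row I true W (M + 1)).1 (row I true W (M + 1)).2) =
        EX a (range M) (fun I =>
          (1 - b) * ((1 - a) * step1 M F false false (row I false W M).1 (row I false W M).2 +
            a * step1 M F true false (row I false W M).1 (row I false W M).2) +
          b * ((1 - a) * step1 M F false false (row I true W M).1 (row I true W M).2 +
            a * step1 M F true false (row I true W M).1 (row I true W M).2)) := by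
      intro W hW
      rw [EX_insert a (by simp), ← EX_mul, ← EX_mul, ← EX_add]
      apply EX_congr
      intro I hI
      rw [row_succ_ff false hI hW, row_succ_ff true hI hW, row_succ_tf false hI hW,
        row_succ_tf true hI hW]
      unfold step1
      ring
    have e' : ∀ W, W ⊆ range M → EX a (insert M (range M)) (fun I =>
        (1 - b) * F (row I false (insert M W) (M + 1)).1 (row I false (insert M W) (M + 1)).2 +
        b * F (row I true (insert M W) (M + 1)).1 (row I true (insert M W) (M + 1)).2) =
        EX a (range M) (fun I =>
          (1 - b) * ((1 - a) * step1 M F false true (row I false W M).1 (row I false W M).2 +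
            a * step1 M F true true (row I false W M).1 (row I false W M).2) +
          b * ((1 - a) * step1 M F false true (row I true W M).1 (row I true W M).2 +
            a * step1 M F true true (row I true W M).1 (row I true W M).2)) := by
      intro W hW
      rw [EX_insert a (by simp), ← EX_mul, ← EX_mul, ← EX_add]
      apply EX_congr
      intro I hI
      rw [row_succ_ft false hI hW, row_succ_ft true hI hW, row_succ_tt false hI hW,
        row_succ_tt true hI hW]
      unfold step1
      ring
    rw [EX_congr r e, EX_congr r e',
      ih (fun K c => (1 - a) * step1 M F false false K c + a * step1 M F true false K c),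
      ih (fun K c => (1 - a) * step1 M F false true K c + a * step1 M F true true K c),
      EX_insert a (by simp), ← EX_mul, ← EX_mul, ← EX_mul, ← EX_mul, ← EX_add, ← EX_add]
    apply EX_congr
    intro K hK
    simp only [step1, fI, fJ, Bool.not_true, Bool.not_false, Bool.false_and, Bool.true_and,
      Bool.or_true, Bool.or_false, Bool.true_or, Bool.false_or, if_true, if_false,
      Bool.false_eq_true]
    linear_combination (F K false - F (insert M K) true) * hab

theorem H_congr {A A' : Finset (ℕ × ℕ)} {I I' J J' : Finset ℕ} {M N : ℕ}
    (hA : ∀ i < M, ∀ j < N, (i, j) ∈ A ↔ (i, j) ∈ A')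
    (hI : ∀ i < M, i ∈ I ↔ i ∈ I') (hJ : ∀ j < N, j ∈ J ↔ j ∈ J') :
    H A I J M N = H A' I' J' M N := by
  unfold H
  apply filter_congr
  intro i hi
  have hi' := mem_range.1 hi
  rw [G_congr hA hI hJ (i := i + 1) (j := N) (by omega) le_rfl,
    G_congr hA hI hJ (i := i) (j := N) (by omega) le_rfl]

theorem prod_range_succ_eq (M N : ℕ) : range M ×ˢ range (N + 1) =
    range M ×ˢ range N ∪ (range M).image (fun i => (i, N)) := by
  ext ⟨x, y⟩
  simp only [mem_product, mem_range, mem_union, mem_image, Prod.mk.injEq]
  constructor
  · rintro ⟨h1, h2⟩
    by_cases h : y < N
    · exact Or.inl ⟨h1, h⟩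
    · exact Or.inr ⟨x, h1, rfl, by omega⟩
  · rintro (⟨h1, h2⟩ | ⟨z, hz, rfl, rfl⟩)
    · exact ⟨h1, by omega⟩
    · exact ⟨hz, by omega⟩

/-- the increments on the top of a rectangle are independent with the same law as on the bottom -/
theorem burke {a b r : ℝ} (hab : a * b = r * (1 - a) * (1 - b)) (M N : ℕ)
    (f : Finset ℕ → ℝ) :
    EX r (range M ×ˢ range N) (fun A => EX a (range M) (fun I => EX b (range N) (fun J =>
      f (H A I J M N)))) = EX a (range M) f := by
  induction N generalizing f with
  | zero =>
    simp only [range_zero, product_empty, EX_empty, H_zero]
    exact EX_congr a (fun I hI => by rw [inter_eq_left.2 hI])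
  | succ N ih =>
    have hinj : Function.Injective (fun i : ℕ => ((i, N) : ℕ × ℕ)) := by
      intro x y h
      exact (Prod.mk.inj h).1
    have hdis : Disjoint (range M ×ˢ range N) ((range M).image (fun i => (i, N))) := by
      rw [disjoint_left]
      rintro ⟨x, y⟩ h1 h2
      rw [mem_product, mem_range, mem_range] at h1
      obtain ⟨z, -, hz⟩ := mem_image.1 h2
      simp only [Prod.mk.injEq] at hz
      dsimp only at h1
      omega
    rw [prod_range_succ_eq, EX_union r hdis]
    have key : ∀ A, A ⊆ range M ×ˢ range N →
        EX r ((range M).image (fun i => (i, N))) (fun B => EX a (range M) (fun I =>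
          EX b (range (N + 1)) (fun J => f (H (A ∪ B) I J M (N + 1))))) =
        EX a (range M) (fun I => EX b (range N) (fun J => EX r (range M) (fun W =>
          (1 - b) * f (row (H A I J M N) false W M).1 +
            b * f (row (H A I J M N) true W M).1))) := by
      intro A hA
      rw [EX_image r (range M) _ hinj, EX_comm]
      apply EX_congr
      intro I hI
      rw [EX_congr r (s := range M) (g := fun W => EX b (range (N + 1)) (fun J => f (row
        (H A I J M N) (decide (N ∈ J)) W M).1)) ?_, EX_comm]
      swap
      · intro W hW
        apply EX_congr
        intro J hJ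
        have e1 := row_H (A ∪ W.image (fun i => (i, N))) I J M N
        have e2 : (range M).filter (fun i => (i, N) ∈ A ∪ W.image (fun i => (i, N))) = W := by
          ext i
          simp only [mem_filter, mem_range, mem_union, mem_image, Prod.mk.injEq, and_true,
            exists_eq_right]
          constructor
          · rintro ⟨h1, h2 | h2⟩
            · have := (mem_product.1 (hA h2)).2
              simp at this
            · exact h2
          · intro h
            exact ⟨mem_range.1 (hW h), Or.inr h⟩
        have e3 : H (A ∪ W.image (fun i => (i, N))) I J M N = H A I J M N := by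
          apply H_congr
          · intro i _ j hj
            simp only [mem_union, mem_image, Prod.mk.injEq]
            constructor
            · rintro (h | ⟨x, _, _, h⟩)
              · exact h
              · omega
            · exact Or.inl
          · exact fun i _ => Iff.rfl
          · exact fun j _ => Iff.rfl
        rw [e2, e3] at e1
        rw [e1]
      · rw [range_add_one, EX_insert b (by simp), ← EX_mul, ← EX_mul, ← EX_add]
        apply EX_congr
        intro J hJ
        have hNJ : N ∉ J := fun h => by have := mem_range.1 (hJ h); omega
        have e4 : H A I (insert N J) M N = H A I J M N := by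
          apply H_congr
          · exact fun i _ j _ => Iff.rfl
          · exact fun i _ => Iff.rfl
          · intro j hj
            simp [mem_insert, show j ≠ N by omega]
        rw [← EX_mul, ← EX_mul, ← EX_add]
        apply EX_congr
        intro W hW
        simp only [e4, hNJ, mem_insert_self, decide_false, decide_true]
    rw [EX_congr r key, ih (fun K => EX r (range M) (fun W => (1 - b) * f (row K false W M).1 +
      b * f (row K true W M).1)), EX_comm, burke_row hab M (fun K _ => f K)]
    apply EX_congr
    intro K _
    ring

end Pool.Agent.V11321.OF
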