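import Pool.Agent.V11321.OF.LPP

/-!
# Last passage values and strict chains
-/

set_option autoImplicit false
set_option linter.unusedSectionVars false
set_option linter.unusedVariables false

open Finset

namespace Pool.Agent.V11321.OF

/-- strictly decreasing list of sites -/
def Dec (l : List (ℕ × ℕ)) : Prop := l.Pairwise (fun u v => v.1 < u.1 ∧ v.2 < u.2)

theorem length_le_G {A : Finset (ℕ × ℕ)} {l : List (ℕ × ℕ)} (hl : Dec l) (hA : ∀ u ∈ l, u ∈ A)
    {i j : ℕ} (hi : ∀ u ∈ l, u.1 < i ∧ u.2 < j) : l.length ≤ G A ∅ ∅ i j := by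
  induction l generalizing i j with
  | nil => simp
  | cons u l ih =>
    unfold Dec at hl
    rw [List.pairwise_cons] at hl
    have h1 := ih hl.2 (fun v hv => hA v (List.mem_cons_of_mem u hv)) (i := u.1) (j := u.2)
      (fun v hv => hl.1 v hv)
    have h2 : G A ∅ ∅ u.1 u.2 + 1 ≤ G A ∅ ∅ (u.1 + 1) (u.2 + 1) := by
      rw [G_ss, if_pos (hA u List.mem_cons_self)]
      exact le_max_right _ _
    have h3 := hi u List.mem_cons_self
    have h4 : G A ∅ ∅ (u.1 + 1) (u.2 + 1) ≤ G A ∅ ∅ i j := G_mono (by omega) (by omega)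
    rw [List.length_cons]
    omega

theorem exists_chain (A : Finset (ℕ × ℕ)) (i j : ℕ) : ∃ l : List (ℕ × ℕ), Dec l ∧
    (∀ u ∈ l, u ∈ A ∧ u.1 < i ∧ u.2 < j) ∧ l.length = G A ∅ ∅ i j := by
  induction i generalizing j with
  | zero => exact ⟨[], List.Pairwise.nil, by simp, by rw [G_left]; simp⟩
  | succ i ih =>
    induction j with
    | zero => exact ⟨[], List.Pairwise.nil, by simp, by rw [G_bot]; simp⟩
    | succ j ihj =>
      have hmax : G A ∅ ∅ (i + 1) (j + 1) = G A ∅ ∅ i (j + 1) ∨
          G A ∅ ∅ (i + 1) (j + 1) = G A ∅ ∅ (i + 1) j ∨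
          (G A ∅ ∅ (i + 1) (j + 1) = G A ∅ ∅ i j + 1 ∧ (i, j) ∈ A) := by
        rw [G_ss]
        have h1 := G_le_right (A := A) (I := ∅) (J := ∅) i j
        have h2 := G_le_up (A := A) (I := ∅) (J := ∅) (i + 1) j
        split_ifs with h
        · simp only [h, and_true]; omega
        · omega
      rcases hmax with h | h | ⟨h, hm⟩
      · obtain ⟨l, h1, h2, h3⟩ := ih (j + 1)
        exact ⟨l, h1, fun u hu => ⟨(h2 u hu).1, by have := (h2 u hu).2.1; omega, (h2 u hu).2.2⟩,
          by rw [h3, h]⟩
      · obtain ⟨l, h1, h2, h3⟩ := ihj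
        exact ⟨l, h1, fun u hu => ⟨(h2 u hu).1, (h2 u hu).2.1, by have := (h2 u hu).2.2; omega⟩,
          by rw [h3, h]⟩
      · obtain ⟨l, h1, h2, h3⟩ := ih j
        refine ⟨(i, j) :: l, List.pairwise_cons.2 ⟨fun v hv => (h2 v hv).2, h1⟩, ?_, ?_⟩
        · intro u hu
          rcases List.mem_cons.1 hu with rfl | hu
          · exact ⟨hm, by dsimp only; omega, by dsimp only; omega⟩
          · exact ⟨(h2 u hu).1, by have := (h2 u hu).2.1; omega, by have := (h2 u hu).2.2; omega⟩
        · rw [List.length_cons, h3, h]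

/-- a long chain avoiding the first column and the last row -/
theorem exists_chain_int (A : Finset (ℕ × ℕ)) (M : ℕ) : ∃ l : List (ℕ × ℕ), Dec l ∧
    (∀ u ∈ l, u ∈ A ∧ 1 ≤ u.1 ∧ u.1 < M ∧ u.2 + 1 < M) ∧ G A ∅ ∅ M M ≤ l.length + 2 := by
  have hfil : ∀ l : List (ℕ × ℕ), Dec l → l.length ≤ (l.filter (fun u => 1 ≤ u.1)).length + 1 := by
    intro l
    induction l with
    | nil => intro _; simp
    | cons u l ih =>
      intro h
      have h' := List.pairwise_cons.1 h
      rw [List.filter_cons]
      split_ifs with hu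
      · have := ih h'.2
        simp only [List.length_cons]
        omega
      · have hu0 : u.1 = 0 := by simpa using hu
        have : l = [] := by
          cases l with
          | nil => rfl
          | cons v l =>
            have := (h'.1 v List.mem_cons_self).1
            omega
        subst this
        simp
  cases M with
  | zero => exact ⟨[], List.Pairwise.nil, by simp, by rw [G_left]; simp⟩
  | succ M =>
    obtain ⟨l, h1, h2, h3⟩ := exists_chain A (M + 1) M
    refine ⟨l.filter (fun u => 1 ≤ u.1), h1.sublist List.filter_sublist, ?_, ?_⟩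
    · intro u hu
      obtain ⟨hu1, hu2⟩ := List.mem_filter.1 hu
      have := h2 u hu1
      exact ⟨this.1, by simpa using hu2, this.2.1, by omega⟩
    · have := (G_step (A := A) (I := ∅) (J := ∅) (M + 1) M).2
      have := hfil l h1
      omega

end Pool.Agent.V11321.OF
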