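import Mathlib

/-!
# Oriented bond percolation in a box: maximal flow
-/

set_option autoImplicit false

open Finset

namespace Pool.Agent.V11321.OF

/-- An oriented edge of the square lattice: its tail together with its direction (`false` = right,
`true` = up). -/
abbrev E := (ℕ × ℕ) × Bool

/-- The endpoint of an oriented edge: the edge `((x, y), false)` goes from `(x, y)` to `(x + 1, y)`,
the edge `((x, y), true)` goes from `(x, y)` to `(x, y + 1)`. -/
def head (e : E) : ℕ × ℕ := if e.2 then (e.1.1, e.1.2 + 1) else (e.1.1 + 1, e.1.2)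

/-- The oriented edges with both endpoints in `{0, …, n - 1}²`. -/
def edges (n : ℕ) : Finset E :=
  ((range n ×ˢ range n) ×ˢ (univ : Finset Bool)).filter
    (fun e => (head e).1 < n ∧ (head e).2 < n)

/-- The source set `S = {(0,0), …, (0,n-2)} ∪ {(1,0), …, (n-2,0)}`. -/
def inS (n : ℕ) (v : ℕ × ℕ) : Prop :=
  (v.1 = 0 ∧ v.2 + 2 ≤ n) ∨ (v.2 = 0 ∧ 1 ≤ v.1 ∧ v.1 + 2 ≤ n)

/-- The target set `T = {(0,n-1), …, (n-1,n-1)} ∪ {(n-1,n-2), …, (n-1,0)}`. -/
def inT (n : ℕ) (v : ℕ × ℕ) : Prop :=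
  (v.2 + 1 = n ∧ v.1 + 1 ≤ n) ∨ (v.1 + 1 = n ∧ v.2 + 2 ≤ n)

/-- `l` is (the list of edges of) an oriented path which uses only edges of `O`, begins at a vertex of
`S` and ends at a vertex of `T`. -/
def IsPath (n : ℕ) (O : Finset E) (l : List E) : Prop :=
  (∀ e ∈ l, e ∈ O) ∧ l.IsChain (fun e f => head e = f.1) ∧
    (∃ e, l.head? = some e ∧ inS n e.1) ∧ (∃ e, l.getLast? = some e ∧ inT n (head e))

/-- The largest number of pairwise edge-disjoint oriented paths from `S` to `T` which use only edges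
of `O`. -/
noncomputable def V (n : ℕ) (O : Finset E) : ℕ :=
  sSup {k : ℕ | ∃ P : Fin k → List E, (∀ i, IsPath n O (P i)) ∧
    Pairwise (fun i j => List.Disjoint (P i) (P j))}

end Pool.Agent.V11321.OF
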