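import Pool.Agent.V11321.OF.Chain
import Pool.Agent.V11321.OF.Defs

/-!
# Upper bound for the flow: cuts given by chains
-/

set_option autoImplicit false
set_option linter.unusedSectionVars false
set_option linter.unusedVariables false

open Finset

namespace Pool.Agent.V11321.OF

/-- a path leaves every set containing its beginning but not its end -/
theorem path_cross {D : ℕ × ℕ → Prop} {l : List E} (hc : l.IsChain (fun e f => head e = f.1))
    {e₀ e₁ : E} (h0 : l.head? = some e₀) (h1 : l.getLast? = some e₁) (hD0 : D e₀.1)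
    (hD1 : ¬ D (head e₁)) : ∃ e ∈ l, D e.1 ∧ ¬ D (head e) := by
  induction l generalizing e₀ with
  | nil => simp at h0
  | cons a l ih =>
    rw [List.head?_cons, Option.some.injEq] at h0
    subst h0
    by_cases ha : D (head a)
    · cases l with
      | nil =>
        simp only [List.getLast?_singleton, Option.some.injEq] at h1
        subst h1
        exact absurd ha hD1
      | cons b l =>
        rw [List.isChain_cons_cons] at hc
        obtain ⟨e, he, h⟩ := ih hc.2 (e₀ := b) (by simp) (by simpa using h1) (hc.1 ▸ ha)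
        exact ⟨e, List.mem_cons_of_mem a he, h⟩
    · exact ⟨a, List.mem_cons_self, hD0, ha⟩

theorem dec_comp {c : List (ℕ × ℕ)} (hc : Dec c) : ∀ u ∈ c, ∀ u' ∈ c,
    u = u' ∨ (u.1 < u'.1 ∧ u.2 < u'.2) ∨ (u'.1 < u.1 ∧ u'.2 < u.2) := by
  induction c with
  | nil => intro u hu; simp at hu
  | cons a c ih =>
    have h := List.pairwise_cons.1 hc
    intro u hu u' hu'
    rcases List.mem_cons.1 hu with h1 | h1
    · rcases List.mem_cons.1 hu' with h2 | h2
      · exact Or.inl (h1.trans h2.symm)
      · rw [h1]; exact Or.inr (Or.inr (h.1 u' h2))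
    · rcases List.mem_cons.1 hu' with h2 | h2
      · rw [h2]; exact Or.inr (Or.inl (h.1 u h1))
      · exact ih h.2 u h1 u' h2

/-- families of disjoint paths are bounded by cuts -/
theorem family_le {n M : ℕ} (hn : n = M + 1) {O : Finset E} (hO : O ⊆ edges n)
    {c : List (ℕ × ℕ)} (hc : Dec c)
    (hcin : ∀ u ∈ c, 1 ≤ u.1 ∧ u.1 < M ∧ u.2 + 1 < M)
    (hcl : ∀ u ∈ c, ((u.1, M - 1 - u.2), false) ∉ O ∨ ((u.1, M - 1 - u.2), true) ∉ O)
    {k : ℕ} (P : Fin k → List E) (hP : ∀ i, IsPath n O (P i))
    (hd : Pairwise (fun i j => List.Disjoint (P i) (P j))) : k + c.length ≤ 2 * M := by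
  classical
  subst hn
  set D : ℕ × ℕ → Prop := fun w => inS (M + 1) w ∨ ∃ u ∈ c, w.1 ≤ u.1 ∧ w.2 ≤ M - 1 - u.2 with hD
  have hlt : ∀ w, D w → w.1 < M ∧ w.2 < M := by
    rintro w ((h | h) | ⟨u, hu, h⟩)
    · omega
    · omega
    · have := hcin u hu
      omega
  have hdown : ∀ x y x' y' : ℕ, D (x, y) → x' ≤ x → y' ≤ y → D (x', y') := by
    rintro x y x' y' ((h | h) | ⟨u, hu, h⟩) hx hy
    · left; left
      dsimp only at h ⊢
      omega
    · left
      dsimp only at h
      by_cases hx0 : x' = 0
      · left; dsimp only; omega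
      · right; dsimp only; omega
    · right
      exact ⟨u, hu, by dsimp only at h ⊢; omega, by dsimp only at h ⊢; omega⟩
  set XD : Finset E := (edges (M + 1)).filter (fun e => D e.1 ∧ ¬ D (head e)) with hXD
  have hXcard : XD.card ≤ 2 * M := by
    have h1 : XD.card ≤ ((range M) ×ˢ (univ : Finset Bool)).card := by
      apply card_le_card_of_injOn (fun e : E => (if e.2 then e.1.1 else e.1.2, e.2))
      · intro e he
        rw [Finset.mem_coe, hXD, mem_filter] at he
        have := hlt e.1 he.2.1
        rw [Finset.mem_coe, mem_product]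
        refine ⟨?_, mem_univ _⟩
        rw [mem_range]
        dsimp only
        split_ifs
        · exact this.1
        · exact this.2
      · rintro ⟨⟨x, y⟩, d⟩ he ⟨⟨x', y'⟩, d'⟩ he' heq
        rw [Finset.mem_coe, hXD, mem_filter] at he he'
        have hDe := he.2
        have hDe' := he'.2
        simp only [Prod.mk.injEq] at heq
        obtain ⟨h1, h2⟩ := heq
        subst h2
        cases d
        · simp only [Bool.false_eq_true, if_false] at h1
          subst h1
          simp only [head, Bool.false_eq_true, if_false] at hDe hDe'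
          have hx : x = x' := by
            by_contra hne
            rcases lt_or_gt_of_ne hne with h | h
            · exact hDe.2 (hdown x' y (x + 1) y hDe'.1 h le_rfl)
            · exact hDe'.2 (hdown x y (x' + 1) y hDe.1 h le_rfl)
          rw [hx]
        · simp only [if_true] at h1
          subst h1
          simp only [head, if_true] at hDe hDe'
          have hy : y = y' := by
            by_contra hne
            rcases lt_or_gt_of_ne hne with h | h
            · exact hDe.2 (hdown x y' x (y + 1) hDe'.1 le_rfl h)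
            · exact hDe'.2 (hdown x y x (y' + 1) hDe.1 le_rfl h)
          rw [hy]
    rw [card_product, card_range, card_univ, Fintype.card_bool] at h1
    omega
  -- the closed crossing edges
  have hcomp : ∀ u ∈ c, ∀ u' ∈ c, u = u' ∨ (u.1 < u'.1 ∧ u.2 < u'.2) ∨ (u'.1 < u.1 ∧ u'.2 < u.2) := by
    exact dec_comp hc
  have hDv : ∀ u ∈ c, D (u.1, M - 1 - u.2) ∧ ¬ D (u.1 + 1, M - 1 - u.2) ∧
      ¬ D (u.1, M - 1 - u.2 + 1) := by
    intro u hu
    have hin := hcin u hu
    refine ⟨Or.inr ⟨u, hu, le_rfl, le_rfl⟩, ?_, ?_⟩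
    · rintro ((h | h) | ⟨u', hu', h⟩)
      · dsimp only at h; omega
      · dsimp only at h; omega
      · dsimp only at h
        have hin' := hcin u' hu'
        rcases hcomp u hu u' hu' with rfl | k | k <;> omega
    · rintro ((h | h) | ⟨u', hu', h⟩)
      · dsimp only at h; omega
      · dsimp only at h; omega
      · dsimp only at h
        have hin' := hcin u' hu'
        rcases hcomp u hu u' hu' with rfl | k | k <;> omega
  have hclosed : c.length ≤ (XD \ O).card := by
    have hnd : c.Nodup := hc.imp (fun {a b} h e => by rw [e] at h; omega)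
    rw [← List.toFinset_card_of_nodup hnd]
    apply card_le_card_of_injOn (fun u : ℕ × ℕ => (((u.1, M - 1 - u.2),
      if ((u.1, M - 1 - u.2), false) ∉ O then false else true) : E))
    · intro u hu
      rw [Finset.mem_coe, List.mem_toFinset] at hu
      rw [Finset.mem_coe, mem_sdiff, hXD, mem_filter]
      have hin := hcin u hu
      obtain ⟨d1, d2, d3⟩ := hDv u hu
      have hed : ∀ d, (((u.1, M - 1 - u.2), d) : E) ∈ edges (M + 1) := by
        intro d
        unfold edges
        rw [mem_filter, mem_product, mem_product, mem_range, mem_range]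
        cases d <;> simp [head] <;> omega
      refine ⟨⟨hed _, d1, ?_⟩, ?_⟩
      · dsimp only
        split_ifs
        · simpa [head] using d3
        · simpa [head] using d2
      · dsimp only
        split_ifs with h
        · exact (hcl u hu).resolve_left (fun h' => h' h)
        · exact h
    · intro u hu u' hu' heq
      rw [Finset.mem_coe, List.mem_toFinset] at hu hu'
      have := hcin u hu
      have := hcin u' hu'
      have h1 : (u.1, M - 1 - u.2) = (u'.1, M - 1 - u'.2) := congrArg Prod.fst heq
      rw [Prod.mk.injEq] at h1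
      exact Prod.ext h1.1 (by omega)
  -- the open crossing edges
  have hopen : k ≤ (XD ∩ O).card := by
    have hex : ∀ i, ∃ e ∈ P i, D e.1 ∧ ¬ D (head e) := by
      intro i
      obtain ⟨h1, h2, ⟨e₀, h3, h4⟩, ⟨e₁, h5, h6⟩⟩ := hP i
      apply path_cross h2 h3 h5 (Or.inl h4)
      intro h
      have := hlt _ h
      rcases h6 with h6 | h6 <;> omega
    choose f hf1 hf2 using hex
    have : (univ : Finset (Fin k)).card ≤ (XD ∩ O).card := by
      apply card_le_card_of_injOn f
      · intro i _
        rw [Finset.mem_coe, mem_inter, hXD, mem_filter]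
        have := (hP i).1 (f i) (hf1 i)
        exact ⟨⟨hO this, hf2 i⟩, this⟩
      · intro i _ j _ hij
        by_contra hne
        exact hd hne (hf1 i) (hij ▸ hf1 j)
    rwa [card_univ, Fintype.card_fin] at this
  have := card_inter_add_card_sdiff XD O
  omega

theorem V_bdd {n M : ℕ} (hn : n = M + 1) {O : Finset E} (hO : O ⊆ edges n) :
    BddAbove {k : ℕ | ∃ P : Fin k → List E, (∀ i, IsPath n O (P i)) ∧
    Pairwise (fun i j => List.Disjoint (P i) (P j))} := by
  refine ⟨2 * M, ?_⟩
  rintro k ⟨P, h1, h2⟩
  have := family_le hn hO (c := []) List.Pairwise.nil (by simp) (by simp) P h1 h2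
  simpa using this

theorem V_le {n M : ℕ} (hn : n = M + 1) {O : Finset E} (hO : O ⊆ edges n)
    {c : List (ℕ × ℕ)} (hc : Dec c)
    (hcin : ∀ u ∈ c, 1 ≤ u.1 ∧ u.1 < M ∧ u.2 + 1 < M)
    (hcl : ∀ u ∈ c, ((u.1, M - 1 - u.2), false) ∉ O ∨ ((u.1, M - 1 - u.2), true) ∉ O) :
    V n O + c.length ≤ 2 * M := by
  have hmem : V n O ∈ {k : ℕ | ∃ P : Fin k → List E, (∀ i, IsPath n O (P i)) ∧
      Pairwise (fun i j => List.Disjoint (P i) (P j))} :=
    Nat.sSup_mem ⟨0, fun i => [], fun i => i.elim0, fun i => i.elim0⟩ (V_bdd hn hO)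
  obtain ⟨P, h1, h2⟩ := hmem
  exact family_le hn hO hc hcin hcl P h1 h2

end Pool.Agent.V11321.OF
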