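import Mathlib

/-!
# Random subsets of a finite set

`EX q s f` is the expectation of `f C`, where `C` is a random subset of `s` to which each element of
`s` belongs with probability `q`, independently.
-/

set_option autoImplicit false
set_option linter.unusedSectionVars false

open Finset

namespace Pool.Agent.V11321.OF

variable {α β : Type*} [DecidableEq α] [DecidableEq β]

/-- expectation of `f C` for a random subset `C` of `s`, each element with probability `q` -/
noncomputable def EX (q : ℝ) (s : Finset α) (f : Finset α → ℝ) : ℝ :=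
  ∑ C ∈ s.powerset, q ^ C.card * (1 - q) ^ (s.card - C.card) * f C

theorem EX_empty (q : ℝ) (f : Finset α → ℝ) : EX q ∅ f = f ∅ := by
  simp [EX]

theorem EX_insert (q : ℝ) {a : α} {s : Finset α} (ha : a ∉ s) (f : Finset α → ℝ) :
    EX q (insert a s) f = (1 - q) * EX q s f + q * EX q s (fun C => f (insert a C)) := by
  unfold EX
  rw [Finset.sum_powerset_insert ha, card_insert_of_notMem ha, mul_sum, mul_sum]
  congr 1
  · apply sum_congr rfl
    intro C hC
    have h1 := card_le_card (mem_powerset.1 hC)
    rw [show s.card + 1 - C.card = (s.card - C.card) + 1 by omega, pow_succ]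
    ring
  · apply sum_congr rfl
    intro C hC
    have h2 : a ∉ C := fun h => ha (mem_powerset.1 hC h)
    rw [card_insert_of_notMem h2, show s.card + 1 - (C.card + 1) = s.card - C.card by omega,
      pow_succ]
    ring

theorem EX_congr (q : ℝ) {s : Finset α} {f g : Finset α → ℝ} (h : ∀ C, C ⊆ s → f C = g C) :
    EX q s f = EX q s g := by
  unfold EX
  exact sum_congr rfl (fun C hC => by rw [h C (mem_powerset.1 hC)])

theorem EX_add (q : ℝ) (s : Finset α) (f g : Finset α → ℝ) :
    EX q s (fun C => f C + g C) = EX q s f + EX q s g := by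
  unfold EX
  rw [← sum_add_distrib]
  exact sum_congr rfl (fun C _ => by ring)

theorem EX_mul (q : ℝ) (s : Finset α) (c : ℝ) (f : Finset α → ℝ) :
    EX q s (fun C => c * f C) = c * EX q s f := by
  unfold EX
  rw [mul_sum]
  exact sum_congr rfl (fun C _ => by ring)

theorem EX_sum {ι : Type*} (q : ℝ) (s : Finset α) (t : Finset ι) (f : ι → Finset α → ℝ) :
    EX q s (fun C => ∑ i ∈ t, f i C) = ∑ i ∈ t, EX q s (f i) := by
  unfold EX
  rw [sum_comm]
  exact sum_congr rfl (fun C _ => by rw [mul_sum])

theorem EX_const (q : ℝ) (s : Finset α) (c : ℝ) : EX q s (fun _ => c) = c := by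
  induction s using Finset.induction_on with
  | empty => exact EX_empty q _
  | insert a s ha ih =>
    rw [EX_insert q ha, ih]
    ring

theorem EX_sub (q : ℝ) (s : Finset α) (f g : Finset α → ℝ) :
    EX q s (fun C => f C - g C) = EX q s f - EX q s g := by
  have h1 := EX_add q s f (fun C => (-1) * g C)
  rw [EX_mul] at h1
  rw [show (fun C => f C - g C) = (fun C => f C + (-1) * g C) by funext C; ring, h1]
  ring

theorem EX_comm (q q' : ℝ) (s : Finset α) (t : Finset β) (f : Finset α → Finset β → ℝ) :
    EX q s (fun A => EX q' t (fun B => f A B)) = EX q' t (fun B => EX q s (fun A => f A B)) := by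
  unfold EX
  simp_rw [mul_sum]
  rw [sum_comm]
  exact sum_congr rfl (fun B _ => sum_congr rfl (fun A _ => by ring))

section
variable {q : ℝ} (h0 : 0 ≤ q) (h1 : q ≤ 1)
include h0 h1

theorem EX_mono {s : Finset α} {f g : Finset α → ℝ} (h : ∀ C, C ⊆ s → f C ≤ g C) :
    EX q s f ≤ EX q s g := by
  unfold EX
  apply sum_le_sum
  intro C hC
  apply mul_le_mul_of_nonneg_left (h C (mem_powerset.1 hC))
  have : 0 ≤ 1 - q := by linarith
  positivity

theorem EX_nonneg {s : Finset α} {f : Finset α → ℝ} (h : ∀ C, C ⊆ s → 0 ≤ f C) :
    0 ≤ EX q s f := by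
  have := EX_mono h0 h1 (s := s) (f := fun _ => 0) (g := f) h
  rwa [EX_const] at this

theorem abs_EX_le {s : Finset α} (f : Finset α → ℝ) : |EX q s f| ≤ EX q s (fun C => |f C|) := by
  rw [abs_le]
  constructor
  · have := EX_mono h0 h1 (s := s) (f := fun C => (-1) * |f C|) (g := f)
      (fun C _ => by have := neg_abs_le (f C); linarith)
    rw [EX_mul] at this
    linarith
  · exact EX_mono h0 h1 (fun C _ => le_abs_self _)

end

theorem EX_union (q : ℝ) {s t : Finset α} (hd : Disjoint s t) (f : Finset α → ℝ) :
    EX q (s ∪ t) f = EX q s (fun A => EX q t (fun B => f (A ∪ B))) := by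
  induction t using Finset.induction_on generalizing f with
  | empty =>
    simp only [union_empty]
    exact EX_congr q (fun C _ => by rw [EX_empty, union_empty])
  | insert a t ha ih =>
    have hd' : Disjoint s t := disjoint_of_subset_right (subset_insert a t) hd
    have has : a ∉ s := fun h => (disjoint_left.1 hd) h (mem_insert_self a t)
    rw [union_insert, EX_insert q (by simp [has, ha]), ih hd', ih hd', ← EX_mul, ← EX_mul,
      ← EX_add]
    apply EX_congr
    intro A _
    rw [EX_insert q ha]
    simp only [union_insert]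

theorem EX_image (q : ℝ) (t : Finset β) (g : β → α) (hg : Function.Injective g)
    (f : Finset α → ℝ) : EX q (t.image g) f = EX q t (fun B => f (B.image g)) := by
  induction t using Finset.induction_on generalizing f with
  | empty => simp [EX_empty]
  | insert a t ha ih =>
    have h1 : g a ∉ t.image g := by
      intro h
      obtain ⟨b, hb, hba⟩ := mem_image.1 h
      exact ha (hg hba ▸ hb)
    rw [image_insert, EX_insert q h1, EX_insert q ha, ih, ih]
    simp only [image_insert]

/-- the random set contains a given set -/
theorem EX_subset (q : ℝ) {s K : Finset α} (hK : K ⊆ s) :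
    EX q s (fun C => if K ⊆ C then 1 else 0) = q ^ K.card := by
  induction s using Finset.induction_on generalizing K with
  | empty =>
    rw [subset_empty.1 hK, EX_empty]
    simp
  | insert a s ha ih =>
    rw [EX_insert q ha]
    by_cases haK : a ∈ K
    · have e1 : EX q s (fun C => if K ⊆ C then (1 : ℝ) else 0) = 0 := by
        refine (EX_congr q (g := fun _ => (0 : ℝ)) ?_).trans (EX_const q s 0)
        intro C hC
        exact if_neg (fun h => ha (hC (h haK)))
      have e2 : EX q s (fun C => if K ⊆ insert a C then (1 : ℝ) else 0) =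
          EX q s (fun C => if K.erase a ⊆ C then (1 : ℝ) else 0) := by
        apply EX_congr
        intro C hC
        simp only [subset_insert_iff]
      have hK' : K.erase a ⊆ s := by
        intro x hx
        have := hK (mem_of_mem_erase hx)
        rw [mem_insert] at this
        exact this.resolve_left (ne_of_mem_erase hx)
      rw [e1, e2, ih hK', card_erase_of_mem haK]
      obtain ⟨c, hc⟩ : ∃ c, K.card = c + 1 := ⟨K.card - 1, by
        have : 0 < K.card := card_pos.2 ⟨a, haK⟩
        omega⟩
      rw [hc, Nat.add_sub_cancel, pow_succ]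
      ring
    · have hK' : K ⊆ s := by
        intro x hx
        have := hK hx
        rw [mem_insert] at this
        exact this.resolve_left (fun h => haK (h ▸ hx))
      have e2 : EX q s (fun C => if K ⊆ insert a C then (1 : ℝ) else 0) =
          EX q s (fun C => if K ⊆ C then (1 : ℝ) else 0) := by
        apply EX_congr
        intro C hC
        simp only [subset_insert_iff_of_notMem haK]
      rw [e2, ih hK']
      ring

/-- the mean of the number of elements -/
theorem EX_card (q : ℝ) (s : Finset α) : EX q s (fun C => (C.card : ℝ)) = q * s.card := by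
  induction s using Finset.induction_on with
  | empty => simp [EX_empty]
  | insert a s ha ih =>
    rw [EX_insert q ha, ih]
    have e : EX q s (fun C => ((insert a C).card : ℝ)) = EX q s (fun C => (C.card : ℝ) + 1) := by
      apply EX_congr
      intro C hC
      rw [card_insert_of_notMem (fun h => ha (hC h))]
      push_cast
      ring
    rw [e, EX_add, ih, EX_const, card_insert_of_notMem ha]
    push_cast
    ring

/-- the variance of the number of elements -/
theorem EX_var (q : ℝ) (s : Finset α) :
    EX q s (fun C => ((C.card : ℝ) - q * s.card) ^ 2) = q * (1 - q) * s.card := by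
  induction s using Finset.induction_on with
  | empty => simp [EX_empty]
  | insert a s ha ih =>
    rw [EX_insert q ha, card_insert_of_notMem ha]
    have e1 : EX q s (fun C => ((C.card : ℝ) - q * ((s.card + 1 : ℕ) : ℝ)) ^ 2) =
        EX q s (fun C => ((C.card : ℝ) - q * s.card) ^ 2) +
          ((-2 * q) * (EX q s (fun C => (C.card : ℝ)) - q * s.card) + q ^ 2) := by
      rw [show (EX q s (fun C => (C.card : ℝ)) - q * s.card) =
        EX q s (fun C => (C.card : ℝ) - q * s.card) by rw [EX_sub, EX_const], ← EX_mul,
        ← EX_const q s (q ^ 2), ← EX_add, ← EX_add]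
      apply EX_congr
      intro C _
      push_cast
      ring
    have e2 : EX q s (fun C => (((insert a C).card : ℝ) - q * ((s.card + 1 : ℕ) : ℝ)) ^ 2) =
        EX q s (fun C => ((C.card : ℝ) - q * s.card) ^ 2) +
          ((2 * (1 - q)) * (EX q s (fun C => (C.card : ℝ)) - q * s.card) + (1 - q) ^ 2) := by
      rw [show (EX q s (fun C => (C.card : ℝ)) - q * s.card) =
        EX q s (fun C => (C.card : ℝ) - q * s.card) by rw [EX_sub, EX_const], ← EX_mul,
        ← EX_const q s ((1 - q) ^ 2), ← EX_add, ← EX_add]
      apply EX_congr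
      intro C hC
      rw [card_insert_of_notMem (fun h => ha (hC h))]
      push_cast
      ring
    rw [e1, e2, ih, EX_card]
    push_cast
    ring

/-- Chebyshev's inequality -/
theorem EX_cheb {q : ℝ} (h0 : 0 ≤ q) (h1 : q ≤ 1) (s : Finset α) {t : ℝ} (ht : 0 < t) :
    EX q s (fun C => if t ≤ |(C.card : ℝ) - q * s.card| then 1 else 0) ≤ s.card / (4 * t ^ 2) := by
  have h2 : EX q s (fun C => if t ≤ |(C.card : ℝ) - q * s.card| then (1 : ℝ) else 0) ≤
      EX q s (fun C => (1 / t ^ 2) * ((C.card : ℝ) - q * s.card) ^ 2) := by
    apply EX_mono h0 h1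
    intro C _
    split_ifs with h
    · rw [← sq_abs ((C.card : ℝ) - q * s.card), div_mul_eq_mul_div, one_mul, le_div_iff₀ (by positivity),
        one_mul]
      exact pow_le_pow_left₀ ht.le h 2
    · positivity
  rw [EX_mul, EX_var] at h2
  refine h2.trans ?_
  rw [div_mul_eq_mul_div, one_mul, div_le_div_iff₀ (by positivity) (by positivity)]
  have h3 : q * (1 - q) ≤ 1 / 4 := by nlinarith [sq_nonneg (q - 1 / 2)]
  have h4 : (0 : ℝ) ≤ s.card := Nat.cast_nonneg _
  have h5 : 0 ≤ t ^ 2 := by positivity
  nlinarith [mul_le_mul_of_nonneg_right h3 (mul_nonneg h4 h5)]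

/-- monotonicity in the probability -/
theorem EX_mono_prob {q q' : ℝ} (h0 : 0 ≤ q) (h01 : q ≤ q') (h1 : q' ≤ 1) (s : Finset α)
    (f : Finset α → ℝ) (hf : ∀ A B, A ⊆ B → f A ≤ f B) : EX q s f ≤ EX q' s f := by
  induction s using Finset.induction_on generalizing f with
  | empty => simp [EX_empty]
  | insert a s ha ih =>
    rw [EX_insert q ha, EX_insert q' ha]
    have e1 := ih f hf
    have e2 := ih (fun C => f (insert a C)) (fun A B h => hf _ _ (insert_subset_insert a h))
    have e3 : EX q' s f ≤ EX q' s (fun C => f (insert a C)) :=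
      EX_mono (h0.trans h01) h1 (fun C _ => hf _ _ (subset_insert a C))
    nlinarith [mul_le_mul_of_nonneg_left e1 (show 0 ≤ 1 - q by linarith),
      mul_le_mul_of_nonneg_left e2 h0,
      mul_le_mul_of_nonneg_left e3 (show 0 ≤ q' - q by linarith)]

end Pool.Agent.V11321.OF
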