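import Pool.Agent.V11321.OF.Burke

/-!
# Mean and concentration of the stationary version; exit points
-/

set_option autoImplicit false
set_option linter.unusedSectionVars false
set_option linter.unusedVariables false
set_option linter.unusedSimpArgs false

open Finset

namespace Pool.Agent.V11321.OF

variable {α : Type*} [DecidableEq α]

open Classical in
/-- indicator -/
noncomputable def ind (P : Prop) : ℝ := if P then 1 else 0

theorem ind_true {P : Prop} (h : P) : ind P = 1 := by simp [ind, h]
theorem ind_false {P : Prop} (h : ¬ P) : ind P = 0 := by simp [ind, h]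
theorem ind_nonneg (P : Prop) : 0 ≤ ind P := by unfold ind; split_ifs <;> norm_num
theorem ind_le_one (P : Prop) : ind P ≤ 1 := by unfold ind; split_ifs <;> norm_num
theorem ind_mono {P Q : Prop} (h : P → Q) : ind P ≤ ind Q := by
  by_cases hp : P
  · rw [ind_true hp, ind_true (h hp)]
  · rw [ind_false hp]; exact ind_nonneg Q
theorem ind_or (P Q : Prop) : ind (P ∨ Q) ≤ ind P + ind Q := by
  by_cases hp : P
  · rw [ind_true (Or.inl hp), ind_true hp]; linarith [ind_nonneg Q]
  · by_cases hq : Q
    · rw [ind_true (Or.inr hq), ind_true hq]; linarith [ind_nonneg P]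
    · rw [ind_false (by tauto), ind_false hp, ind_false hq]; norm_num

theorem EX_inter (q : ℝ) {s t : Finset α} (h : s ⊆ t) (f : Finset α → ℝ) :
    EX q t (fun C => f (C ∩ s)) = EX q s f := by
  conv_lhs => rw [← union_sdiff_of_subset h]
  rw [EX_union q disjoint_sdiff]
  apply EX_congr
  intro A hA
  refine (EX_congr q (g := fun _ => f A) ?_).trans (EX_const q _ _)
  intro B hB
  congr 1
  ext x
  simp only [mem_inter, mem_union]
  constructor
  · rintro ⟨h1 | h1, h2⟩
    · exact h1
    · exact absurd h2 (mem_sdiff.1 (hB h1)).2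
  · intro h1
    exact ⟨Or.inl h1, hA h1⟩

theorem cheb' {q : ℝ} (h0 : 0 ≤ q) (h1 : q ≤ 1) (s : Finset α) {t : ℝ} (ht : 0 < t) :
    EX q s (fun C => ind (t ≤ |(C.card : ℝ) - q * s.card|)) ≤ s.card / (4 * t ^ 2) := by
  refine le_trans (le_of_eq ?_) (EX_cheb h0 h1 s ht)
  apply EX_congr
  intro C _
  unfold ind
  split_ifs <;> rfl

theorem cheb_sub {q : ℝ} (h0 : 0 ≤ q) (h1 : q ≤ 1) {s t : Finset α} (hst : s ⊆ t) {c : ℝ}
    (hc : 0 < c) :
    EX q t (fun C => ind (c ≤ |((C ∩ s).card : ℝ) - q * s.card|)) ≤ s.card / (4 * c ^ 2) := by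
  rw [EX_inter q hst (fun C => ind (c ≤ |(C.card : ℝ) - q * s.card|))]
  exact cheb' h0 h1 s hc

/-- expectation over marks, bottom and left increments -/
noncomputable def E3 (r a b : ℝ) (M N : ℕ) (F : Finset (ℕ × ℕ) → Finset ℕ → Finset ℕ → ℝ) : ℝ :=
  EX r (range M ×ˢ range N) (fun A => EX a (range M) (fun I => EX b (range N) (fun J => F A I J)))

theorem E3_congr (r a b : ℝ) (M N : ℕ) {F F' : Finset (ℕ × ℕ) → Finset ℕ → Finset ℕ → ℝ}
    (h : ∀ A I J, A ⊆ range M ×ˢ range N → I ⊆ range M → J ⊆ range N → F A I J = F' A I J) :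
    E3 r a b M N F = E3 r a b M N F' :=
  EX_congr r (fun A hA => EX_congr a (fun I hI => EX_congr b (fun J hJ => h A I J hA hI hJ)))

theorem E3_add (r a b : ℝ) (M N : ℕ) (F F' : Finset (ℕ × ℕ) → Finset ℕ → Finset ℕ → ℝ) :
    E3 r a b M N (fun A I J => F A I J + F' A I J) = E3 r a b M N F + E3 r a b M N F' := by
  unfold E3
  simp only [EX_add]

theorem E3_mul (r a b : ℝ) (M N : ℕ) (c : ℝ) (F : Finset (ℕ × ℕ) → Finset ℕ → Finset ℕ → ℝ) :
    E3 r a b M N (fun A I J => c * F A I J) = c * E3 r a b M N F := by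
  unfold E3
  simp only [EX_mul]

theorem E3_const (r a b : ℝ) (M N : ℕ) (c : ℝ) : E3 r a b M N (fun _ _ _ => c) = c := by
  unfold E3
  simp only [EX_const]

theorem E3_mono {r a b : ℝ} (hr0 : 0 ≤ r) (hr1 : r ≤ 1) (ha0 : 0 ≤ a) (ha1 : a ≤ 1)
    (hb0 : 0 ≤ b) (hb1 : b ≤ 1) (M N : ℕ) {F F' : Finset (ℕ × ℕ) → Finset ℕ → Finset ℕ → ℝ}
    (h : ∀ A I J, A ⊆ range M ×ˢ range N → I ⊆ range M → J ⊆ range N → F A I J ≤ F' A I J) :
    E3 r a b M N F ≤ E3 r a b M N F' :=
  EX_mono hr0 hr1 (fun A hA => EX_mono ha0 ha1 (fun I hI => EX_mono hb0 hb1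
    (fun J hJ => h A I J hA hI hJ)))

theorem E3_J (r a b : ℝ) (M N : ℕ) (f : Finset ℕ → ℝ) :
    E3 r a b M N (fun _ _ J => f J) = EX b (range N) f := by
  unfold E3
  simp only [EX_const]

theorem E3_I (r a b : ℝ) (M N : ℕ) (f : Finset ℕ → ℝ) :
    E3 r a b M N (fun _ I _ => f I) = EX a (range M) f := by
  unfold E3
  simp only [EX_const]

theorem E3_A (r a b : ℝ) (M N : ℕ) (f : Finset (ℕ × ℕ) → ℝ) :
    E3 r a b M N (fun A _ _ => f A) = EX r (range M ×ˢ range N) f := by
  unfold E3
  simp only [EX_const]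

theorem G_eq {A : Finset (ℕ × ℕ)} {I J : Finset ℕ} {M N : ℕ} (hJ : J ⊆ range N) :
    G A I J M N = J.card + (H A I J M N).card := by
  rw [card_H, G_left, inter_eq_left.2 hJ]

theorem mean_G {a b r : ℝ} (hab : a * b = r * (1 - a) * (1 - b)) (M N : ℕ) :
    E3 r a b M N (fun A I J => (G A I J M N : ℝ)) = a * M + b * N := by
  have h1 : E3 r a b M N (fun A I J => (G A I J M N : ℝ)) =
      E3 r a b M N (fun A I J => (J.card : ℝ) + ((H A I J M N).card : ℝ)) :=
    E3_congr r a b M N (fun A I J _ _ hJ => by rw [G_eq hJ]; push_cast; ring)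
  rw [h1, E3_add, E3_J r a b M N (fun J => (J.card : ℝ)), EX_card]
  have h2 := burke hab M N (fun K => (K.card : ℝ))
  rw [EX_card] at h2
  unfold E3
  rw [h2, card_range, card_range]
  ring

theorem conc_G {a b r : ℝ} (hr0 : 0 ≤ r) (hr1 : r ≤ 1) (ha0 : 0 ≤ a) (ha1 : a ≤ 1)
    (hb0 : 0 ≤ b) (hb1 : b ≤ 1) (hab : a * b = r * (1 - a) * (1 - b)) (M N : ℕ) {t : ℝ}
    (ht : 0 < t) :
    E3 r a b M N (fun A I J => ind (2 * t ≤ |(G A I J M N : ℝ) - (a * M + b * N)|)) ≤
      (M + N) / (4 * t ^ 2) := by
  have h1 : E3 r a b M N (fun A I J => ind (2 * t ≤ |(G A I J M N : ℝ) - (a * M + b * N)|)) ≤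
      E3 r a b M N (fun A I J => ind (t ≤ |(J.card : ℝ) - b * (range N).card|) +
        ind (t ≤ |((H A I J M N).card : ℝ) - a * (range M).card|)) := by
    apply E3_mono hr0 hr1 ha0 ha1 hb0 hb1
    intro A I J _ _ hJ
    refine (ind_mono ?_).trans (ind_or _ _)
    intro h
    rw [G_eq hJ] at h
    push_cast at h
    rw [card_range, card_range]
    by_contra hc
    push Not at hc
    have := abs_add_le ((J.card : ℝ) - b * N) (((H A I J M N).card : ℝ) - a * M)
    rw [show (J.card : ℝ) - b * N + (((H A I J M N).card : ℝ) - a * M) =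
      (J.card : ℝ) + ((H A I J M N).card : ℝ) - (a * M + b * N) by ring] at this
    linarith [hc.1, hc.2]
  refine h1.trans ?_
  rw [E3_add, E3_J r a b M N (fun J => ind (t ≤ |(J.card : ℝ) - b * (range N).card|))]
  have h2 := burke hab M N (fun K => ind (t ≤ |(K.card : ℝ) - a * (range M).card|))
  have h3 := cheb' hb0 hb1 (range N) ht
  have h4 := cheb' ha0 ha1 (range M) ht
  have h5 : E3 r a b M N (fun A I J => ind (t ≤ |((H A I J M N).card : ℝ) - a * (range M).card|))
      = EX a (range M) (fun K => ind (t ≤ |(K.card : ℝ) - a * (range M).card|)) := h2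
  rw [h5]
  rw [card_range] at h3 h4
  rw [card_range, card_range]
  calc _ ≤ (N : ℝ) / (4 * t ^ 2) + M / (4 * t ^ 2) := add_le_add h3 h4
    _ = _ := by ring

/-- mean of the last passage value of an `m × m` square -/
noncomputable def EL (r : ℝ) (m : ℕ) : ℝ :=
  EX r (range m ×ˢ range m) (fun A => (G A ∅ ∅ m m : ℝ))

/-- the stationary density -/
noncomputable def dens (r : ℝ) : ℝ := Real.sqrt r / (1 + Real.sqrt r)

theorem dens_nonneg (r : ℝ) : 0 ≤ dens r := by unfold dens; positivity

theorem dens_pos {r : ℝ} (hr : 0 < r) : 0 < dens r := by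
  unfold dens
  have := Real.sqrt_pos.2 hr
  positivity

theorem dens_le_half {r : ℝ} (hr : r ≤ 1) : dens r ≤ 1 / 2 := by
  unfold dens
  have h1 : Real.sqrt r ≤ 1 := by rw [Real.sqrt_le_one]; exact hr
  rw [div_le_div_iff₀ (by positivity) (by norm_num)]
  linarith

theorem dens_sq {r : ℝ} (hr : 0 ≤ r) : dens r * dens r = r * (1 - dens r) * (1 - dens r) := by
  have h1 : 1 - dens r = 1 / (1 + Real.sqrt r) := by
    unfold dens
    field_simp
    ring
  rw [h1]
  unfold dens
  field_simp
  rw [Real.sq_sqrt hr]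

theorem EL_le {r : ℝ} (hr0 : 0 ≤ r) (hr1 : r ≤ 1) (m : ℕ) : EL r m ≤ 2 * dens r * m := by
  have ha0 := dens_nonneg r
  have ha1 : dens r ≤ 1 := (dens_le_half hr1).trans (by norm_num)
  have h1 := mean_G (dens_sq hr0) m m
  have h2 : EL r m ≤ E3 r (dens r) (dens r) m m (fun A I J => (G A I J m m : ℝ)) := by
    unfold EL
    rw [← E3_A r (dens r) (dens r)]
    apply E3_mono hr0 hr1 ha0 ha1 ha0 ha1
    intro A I J _ _ _
    exact_mod_cast G_mono_data (subset_refl A) (empty_subset I) (empty_subset J) m m
  rw [h1] at h2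
  linarith

/-! ### Exit points -/

/-- value of the best path leaving the bottom boundary not before `s` -/
def X1 (s : ℕ) (A : Finset (ℕ × ℕ)) (I : Finset ℕ) (i j : ℕ) : ℕ :=
  (I ∩ range s).card + G (A.filter (fun p => s ≤ p.1)) (I.filter (fun x => s ≤ x)) ∅ i j

theorem G_ge_diag (A : Finset (ℕ × ℕ)) (I J : Finset ℕ) (i j : ℕ) :
    G A I J i j + (if (i, j) ∈ A then 1 else 0) ≤ G A I J (i + 1) (j + 1) := by
  rw [G_ss]; exact le_max_right _ _

theorem mem_image_swap (A : Finset (ℕ × ℕ)) (i j : ℕ) : (j, i) ∈ A.image Prod.swap ↔ (i, j) ∈ A := by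
  rw [mem_image]
  constructor
  · rintro ⟨⟨x, y⟩, h, e⟩
    simp only [Prod.swap_prod_mk, Prod.mk.injEq] at e
    obtain ⟨rfl, rfl⟩ := e
    exact h
  · intro h
    exact ⟨(i, j), h, rfl⟩

theorem card_inter_split (I : Finset ℕ) (s n : ℕ) : (I ∩ range n).card ≤
    (I ∩ range s).card + (I.filter (fun x => s ≤ x) ∩ range n).card := by
  rw [← card_union_of_disjoint]
  · apply card_le_card
    intro x
    simp only [mem_inter, mem_union, mem_filter, mem_range]
    intro h
    by_cases hx : x < s
    · exact Or.inl ⟨h.1, hx⟩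
    · exact Or.inr ⟨⟨h.1, by omega⟩, h.2⟩
  · rw [disjoint_left]
    intro x
    simp only [mem_inter, mem_filter, mem_range]
    intro h1 h2
    omega

theorem exit_lemma (s : ℕ) (A : Finset (ℕ × ℕ)) (I J : Finset ℕ) (i j : ℕ) :
    G A I J i j ≤ s + G A ∅ ∅ i j ∨ G A I J i j ≤ X1 s A I i j ∧ s ≤ i ∨
      G A I J i j ≤ X1 s (A.image Prod.swap) J j i ∧ s ≤ j := by
  have hle : ∀ (K : Finset ℕ) (n : ℕ), (K ∩ range n).card ≤ n := by
    intro K n
    calc _ ≤ (range n).card := card_le_card inter_subset_right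
      _ = n := card_range n
  induction i generalizing j with
  | zero =>
    rw [G_left]
    by_cases hj : j < s
    · left
      have := hle J j
      omega
    · right; right
      refine ⟨?_, by omega⟩
      unfold X1
      rw [G_bot]
      exact card_inter_split J s j
  | succ i ih =>
    induction j with
    | zero =>
      rw [G_bot]
      by_cases hi : i + 1 < s
      · left
        have := hle I (i + 1)
        omega
      · right; left
        refine ⟨?_, by omega⟩
        unfold X1
        rw [G_bot]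
        exact card_inter_split I s (i + 1)
    | succ j ihj =>
      have a1 := G_le_right (A := A) (I := ∅) (J := ∅) i (j + 1)
      have a2 := G_le_up (A := A) (I := ∅) (J := ∅) (i + 1) j
      have a3 := G_ge_diag A ∅ ∅ i j
      have b1 : X1 s A I i (j + 1) ≤ X1 s A I (i + 1) (j + 1) := by
        unfold X1; have := G_le_right (A := A.filter (fun p => s ≤ p.1))
          (I := I.filter (fun x => s ≤ x)) (J := ∅) i (j + 1); omega
      have b2 : X1 s A I (i + 1) j ≤ X1 s A I (i + 1) (j + 1) := by
        unfold X1; have := G_le_up (A := A.filter (fun p => s ≤ p.1))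
          (I := I.filter (fun x => s ≤ x)) (J := ∅) (i + 1) j; omega
      have b3 : s ≤ i → X1 s A I i j + (if (i, j) ∈ A then 1 else 0) ≤
          X1 s A I (i + 1) (j + 1) := by
        intro hs
        unfold X1
        have := G_ge_diag (A.filter (fun p => s ≤ p.1)) (I.filter (fun x => s ≤ x)) ∅ i j
        simp only [mem_filter, hs, and_true] at this
        omega
      have c1 : X1 s (A.image Prod.swap) J (j + 1) i ≤
          X1 s (A.image Prod.swap) J (j + 1) (i + 1) := by
        unfold X1; have := G_le_up (A := (A.image Prod.swap).filter (fun p => s ≤ p.1))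
          (I := J.filter (fun x => s ≤ x)) (J := ∅) (j + 1) i; omega
      have c2 : X1 s (A.image Prod.swap) J j (i + 1) ≤
          X1 s (A.image Prod.swap) J (j + 1) (i + 1) := by
        unfold X1; have := G_le_right (A := (A.image Prod.swap).filter (fun p => s ≤ p.1))
          (I := J.filter (fun x => s ≤ x)) (J := ∅) j (i + 1); omega
      have c3 : s ≤ j → X1 s (A.image Prod.swap) J j i + (if (i, j) ∈ A then 1 else 0) ≤
          X1 s (A.image Prod.swap) J (j + 1) (i + 1) := by
        intro hs
        unfold X1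
        have := G_ge_diag ((A.image Prod.swap).filter (fun p => s ≤ p.1))
          (J.filter (fun x => s ≤ x)) ∅ j i
        simp only [mem_filter, hs, and_true, mem_image_swap] at this
        omega
      have hmax : G A I J (i + 1) (j + 1) = G A I J i (j + 1) ∨
          G A I J (i + 1) (j + 1) = G A I J (i + 1) j ∨
          G A I J (i + 1) (j + 1) = G A I J i j + (if (i, j) ∈ A then 1 else 0) := by
        rw [G_ss]
        omega
      rcases hmax with h | h | h
      · rcases ih (j + 1) with k | ⟨k, k'⟩ | ⟨k, k'⟩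
        · left; omega
        · right; left; exact ⟨by omega, by omega⟩
        · right; right; exact ⟨by omega, by omega⟩
      · rcases ihj with k | ⟨k, k'⟩ | ⟨k, k'⟩
        · left; omega
        · right; left; exact ⟨by omega, by omega⟩
        · right; right; exact ⟨by omega, by omega⟩
      · rcases ih j with k | ⟨k, k'⟩ | ⟨k, k'⟩
        · left; omega
        · right; left
          have := b3 k'
          exact ⟨by omega, by omega⟩
        · right; right
          have := c3 k'
          exact ⟨by omega, by omega⟩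

theorem X1_le (s : ℕ) (A : Finset (ℕ × ℕ)) (I J : Finset ℕ) (i j : ℕ) (hi : s ≤ i) :
    X1 s A I i j ≤ G A I J i j := by
  have hz : ∀ k j : ℕ, k ≤ s →
      G (A.filter (fun p => s ≤ p.1)) (I.filter (fun x => s ≤ x)) ∅ k j = 0 := by
    intro k j hk
    rw [G_congr (A' := ∅) (I' := ∅) (J' := ∅) (M := s) (N := j) ?_ ?_ ?_ hk le_rfl]
    · have hh : ∀ i j : ℕ, G ∅ ∅ ∅ i j = 0 := by
        intro i
        induction i with
        | zero => intro j; rw [G_left]; simp
        | succ i ih =>
          intro j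
          induction j with
          | zero => rw [G_bot]; simp
          | succ j ihj => rw [G_ss, ih, ihj, ih]; simp
      exact hh k j
    · intro i hi j _
      simp only [mem_filter, notMem_empty, iff_false]
      intro h
      omega
    · intro i hi
      simp only [mem_filter, notMem_empty, iff_false]
      intro h
      omega
    · intro j _; simp
  induction i, hi using Nat.le_induction generalizing j with
  | base =>
    unfold X1
    rw [hz s j le_rfl, ← G_bot (A := A) (I := I) (J := J) s]
    exact G_mono le_rfl (Nat.zero_le j)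
  | succ i hi ih =>
    induction j with
    | zero =>
      unfold X1
      rw [G_bot, G_bot]
      have : (I ∩ range s) ∪ (I.filter (fun x => s ≤ x) ∩ range (i + 1)) ⊆ I ∩ range (i + 1) := by
        intro x
        simp only [mem_inter, mem_union, mem_filter, mem_range]
        rintro (h | h)
        · exact ⟨h.1, by omega⟩
        · exact ⟨h.1.1, h.2⟩
      refine le_trans ?_ (card_le_card this)
      rw [card_union_of_disjoint]
      rw [disjoint_left]
      intro x
      simp only [mem_inter, mem_filter, mem_range]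
      intro h1 h2
      omega
    | succ j ihj =>
      have k1 := ih (j + 1)
      have k2 := ihj
      have k3 := ih j
      unfold X1 at *
      rw [G_ss, G_ss]
      have k4 : (if (i, j) ∈ A.filter (fun p => s ≤ p.1) then 1 else 0) =
        (if (i, j) ∈ A then 1 else 0) := by simp [hi]
      rw [k4]
      omega

end Pool.Agent.V11321.OF
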