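import Pool.Agent.V11321.OF.Walk
import Pool.Agent.V11321.OF.Stat

/-!
# First moment bound for the bad event
-/

set_option autoImplicit false
set_option linter.unusedSectionVars false
set_option linter.unusedVariables false

open Finset

namespace Pool.Agent.V11321.OF

variable {α : Type*} [DecidableEq α]

/-- sum over the lists of length `k` with entries in `Ω` -/
noncomputable def SL (Ω : Finset α) : ℕ → (List α → ℝ) → ℝ
  | 0, f => f []
  | k + 1, f => ∑ e ∈ Ω, SL Ω k (fun l => f (e :: l))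

theorem SL_mono (Ω : Finset α) (k : ℕ) {f g : List α → ℝ}
    (h : ∀ l : List α, l.length = k → (∀ e ∈ l, e ∈ Ω) → f l ≤ g l) : SL Ω k f ≤ SL Ω k g := by
  induction k generalizing f g with
  | zero => exact h [] rfl (by simp)
  | succ k ih =>
    unfold SL
    apply sum_le_sum
    intro e he
    apply ih
    intro l hl hm
    apply h (e :: l) (by simp [hl])
    intro a ha
    rcases List.mem_cons.1 ha with rfl | ha
    · exact he
    · exact hm a ha

theorem SL_mul (Ω : Finset α) (k : ℕ) (c : ℝ) (f : List α → ℝ) :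
    SL Ω k (fun l => c * f l) = c * SL Ω k f := by
  induction k generalizing f with
  | zero => rfl
  | succ k ih =>
    unfold SL
    rw [mul_sum]
    exact sum_congr rfl (fun e _ => ih _)

theorem SL_sum {ι : Type*} (Ω : Finset α) (k : ℕ) (s : Finset ι) (f : ι → List α → ℝ) :
    SL Ω k (fun l => ∑ i ∈ s, f i l) = ∑ i ∈ s, SL Ω k (f i) := by
  induction k generalizing f with
  | zero => rfl
  | succ k ih =>
    unfold SL
    rw [sum_comm]
    exact sum_congr rfl (fun e _ => ih _)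

theorem SL_nonneg (Ω : Finset α) (k : ℕ) {f : List α → ℝ} (h : ∀ l, 0 ≤ f l) : 0 ≤ SL Ω k f := by
  induction k generalizing f with
  | zero => exact h []
  | succ k ih =>
    unfold SL
    exact sum_nonneg (fun e _ => ih (fun l => h _))

theorem SL_single (Ω : Finset α) {f : List α → ℝ} (h : ∀ l, 0 ≤ f l) (l : List α)
    (hl : ∀ e ∈ l, e ∈ Ω) : f l ≤ SL Ω l.length f := by
  induction l generalizing f with
  | nil => exact le_rfl
  | cons a l ih =>
    have h1 := ih (f := fun l => f (a :: l)) (fun l => h _)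
      (fun e he => hl e (List.mem_cons_of_mem a he))
    rw [List.length_cons]
    unfold SL
    refine h1.trans ?_
    exact single_le_sum (f := fun e => SL Ω l.length (fun l => f (e :: l)))
      (fun e _ => SL_nonneg Ω _ (fun l => h _)) (hl a List.mem_cons_self)

theorem EX_SL (q : ℝ) (s : Finset α) (Ω : Finset α) (k : ℕ) (f : List α → Finset α → ℝ) :
    EX q s (fun C => SL Ω k (fun l => f l C)) = SL Ω k (fun l => EX q s (f l)) := by
  induction k generalizing f with
  | zero => rfl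
  | succ k ih =>
    unfold SL
    rw [EX_sum]
    exact sum_congr rfl (fun e _ => ih _)

/-- union bound over lists -/
theorem union_lists {q : ℝ} (h0 : 0 ≤ q) (h1 : q ≤ 1) (Ω : Finset α) (P : List α → Prop) :
    EX q Ω (fun K => ind (∃ l : List α, l.Nodup ∧ (∀ e ∈ l, e ∈ K) ∧ P l)) ≤
      ∑ k ∈ range (Ω.card + 1), SL Ω k (fun l => q ^ k * ind (P l)) := by
  have e1 : EX q Ω (fun K => ind (∃ l : List α, l.Nodup ∧ (∀ e ∈ l, e ∈ K) ∧ P l)) ≤
      EX q Ω (fun K => ∑ k ∈ range (Ω.card + 1), SL Ω k (fun l =>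
        ind (l.Nodup ∧ (∀ e ∈ l, e ∈ K) ∧ P l))) := by
    apply EX_mono h0 h1
    intro K hK
    have hnn : ∀ l : List α, 0 ≤ ind (l.Nodup ∧ (∀ e ∈ l, e ∈ K) ∧ P l) :=
      fun l => ind_nonneg _
    by_cases h : ∃ l : List α, l.Nodup ∧ (∀ e ∈ l, e ∈ K) ∧ P l
    · rw [ind_true h]
      obtain ⟨l, hl1, hl2, hl3⟩ := h
      have hlen : l.length ≤ Ω.card := by
        rw [← List.toFinset_card_of_nodup hl1]
        apply card_le_card
        intro e he
        exact hK (hl2 e (List.mem_toFinset.1 he))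
      have h2 := SL_single Ω hnn l (fun e he => hK (hl2 e he))
      rw [ind_true ⟨hl1, hl2, hl3⟩] at h2
      refine h2.trans ?_
      exact single_le_sum (f := fun k => SL Ω k (fun l =>
        ind (l.Nodup ∧ (∀ e ∈ l, e ∈ K) ∧ P l))) (fun k _ => SL_nonneg Ω _ hnn)
        (mem_range.2 (by omega))
    · rw [ind_false h]
      exact sum_nonneg (fun k _ => SL_nonneg Ω _ hnn)
  refine e1.trans ?_
  rw [EX_sum]
  apply sum_le_sum
  intro k _
  rw [EX_SL]
  apply SL_mono
  intro l hl hm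
  by_cases hn : l.Nodup
  · by_cases hP : P l
    · rw [ind_true hP, mul_one, ← hl, ← List.toFinset_card_of_nodup hn]
      rw [← EX_subset q (s := Ω) (K := l.toFinset) (fun e he => hm e (List.mem_toFinset.1 he))]
      apply le_of_eq
      apply EX_congr
      intro K _
      by_cases hK : l.toFinset ⊆ K
      · rw [if_pos hK, ind_true]
        exact ⟨hn, fun e he => hK (List.mem_toFinset.2 he), hP⟩
      · rw [if_neg hK, ind_false]
        rintro ⟨-, h, -⟩
        exact hK (fun e he => h e (List.mem_toFinset.1 he))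
    · rw [ind_false hP, mul_zero]
      apply le_of_eq
      refine (EX_congr q (g := fun _ => (0 : ℝ)) ?_).trans (EX_const q _ _)
      intro K _
      exact ind_false (fun h => hP h.2.2)
  · have : EX q Ω (fun K => ind (l.Nodup ∧ (∀ e ∈ l, e ∈ K) ∧ P l)) = 0 := by
      refine (EX_congr q (g := fun _ => (0 : ℝ)) ?_).trans (EX_const q _ _)
      intro K _
      exact ind_false (fun h => hn h.1)
    rw [this]
    exact mul_nonneg (pow_nonneg h0 _) (ind_nonneg _)

/-- geometric sums along an injective family of exponents -/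
theorem geom_inj {ι : Type*} {c : ℝ} (h0 : 0 ≤ c) (h1 : c < 1) (s : Finset ι) (g : ι → ℕ)
    (hg : Set.InjOn g s) : ∑ i ∈ s, c ^ g i ≤ 1 / (1 - c) := by
  classical
  rw [← sum_image (f := fun n => c ^ n) hg, one_div, ← tsum_geometric_of_lt_one h0 h1]
  exact (summable_geometric_of_lt_one h0 h1).sum_le_tsum _ (fun i _ => pow_nonneg h0 i)

/-- weight of a displacement in one coordinate -/
noncomputable def rho (θ : ℝ) (x x' : ℕ) : ℝ := if x < x' then θ ^ (x' - x) else (1 / (2 * θ)) ^ (x - x')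

theorem rho_nonneg {θ : ℝ} (h : 0 < θ) (x x' : ℕ) : 0 ≤ rho θ x x' := by
  unfold rho; split_ifs <;> positivity

theorem rho_eq {θ : ℝ} (h : 0 < θ) (x x' : ℕ) :
    rho θ x x' * θ ^ x = (1 / 2) ^ (x - x') * θ ^ x' := by
  unfold rho
  split_ifs with hx
  · rw [show x - x' = 0 by omega, pow_zero, one_mul, ← pow_add, Nat.sub_add_cancel hx.le]
  · have : θ ^ x = θ ^ (x - x') * θ ^ x' := by rw [← pow_add, Nat.sub_add_cancel (by omega)]
    rw [this, ← mul_assoc, ← mul_pow]
    congr 2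
    field_simp

theorem rho_sum_pos {θ : ℝ} (h0 : 0 < θ) (h1 : θ < 1) (x M : ℕ) :
    ∑ x' ∈ (range M).filter (fun x' => x < x'), rho θ x x' ≤ 1 / (1 - θ) := by
  rw [sum_congr rfl (g := fun x' => θ ^ (x' - x))]
  · apply geom_inj h0.le h1
    intro a ha b hb hab
    simp only [coe_filter, Set.mem_ofPred_eq] at ha hb
    dsimp only at hab
    omega
  · intro x' hx'
    unfold rho
    rw [if_pos (mem_filter.1 hx').2]

theorem rho_sum_neg {θ : ℝ} (h0 : 3 / 4 ≤ θ) (x M : ℕ) :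
    ∑ x' ∈ (range M).filter (fun x' => ¬ x < x'), rho θ x x' ≤ 3 := by
  have hθ : 0 < θ := by linarith
  have hc : 1 / (2 * θ) ≤ 2 / 3 := by
    rw [div_le_div_iff₀ (by positivity) (by norm_num)]; linarith
  rw [sum_congr rfl (g := fun x' => (1 / (2 * θ)) ^ (x - x'))]
  · refine (geom_inj (c := 1 / (2 * θ)) (by positivity) (by linarith) _ _ ?_).trans ?_
    · intro a ha b hb hab
      simp only [coe_filter, Set.mem_ofPred_eq] at ha hb
      omega
    · rw [div_le_iff₀ (by linarith)]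
      linarith
  · intro x' hx'
    unfold rho
    rw [if_neg (mem_filter.1 hx').2]

/-- the weights of the lists -/
noncomputable def wt (q t θ : ℝ) : List E → ℝ
  | [] => 1
  | [e] => q * 2 * θ ^ (e.1.1 + e.1.2)
  | e' :: e :: l => wt q t θ (e :: l) * (q * 2 * ((if e.1.1 < e'.1.1 ∧ e.1.2 < e'.1.2 then 1 else t) *
      (rho θ e.1.1 e'.1.1 * rho θ e.1.2 e'.1.2)))

theorem wt_nonneg {q t θ : ℝ} (hq : 0 ≤ q) (ht : 0 ≤ t) (hθ : 0 < θ) (l : List E) :
    0 ≤ wt q t θ l := by
  induction l with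
  | nil => simp [wt]
  | cons e' l ih =>
    cases l with
    | nil => rw [wt]; positivity
    | cons e l =>
      rw [wt]
      have h1 := rho_nonneg hθ e.1.1 e'.1.1
      have h2 := rho_nonneg hθ e.1.2 e'.1.2
      split_ifs <;> positivity

/-- comparison of the weight with the score and the number of bad pairs -/
theorem wt_ge {q t θ : ℝ} (hq : 0 ≤ q) (ht : 0 ≤ t) (hθ : 0 < θ) (e : E) (l : List E) :
    q ^ (l.length + 1) * (2 : ℝ) ^ sc (e :: l) * t ^ bad (e :: l) * θ ^ (e.1.1 + e.1.2) ≤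
      wt q t θ (e :: l) := by
  induction l generalizing e with
  | nil => simp [sc, cto, bad, wt]
  | cons e₀ l ih =>
    have h1 := ih e₀
    have hsc : sc (e :: e₀ :: l) = sc (e₀ :: l) + (1 - (cst (aft e₀) (bef e) : ℤ)) := by
      have : sc (e :: e₀ :: l) = sc (e₀ :: l) + 1 - cst (aft e₀) (bef e) := rfl
      rw [this]; ring
    have hc := cst_ge e₀ e
    rw [wt]
    have hb : t ^ bad (e :: e₀ :: l) = t ^ bad (e₀ :: l) *
        (if e₀.1.1 < e.1.1 ∧ e₀.1.2 < e.1.2 then 1 else t) := by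
      rw [bad]
      split_ifs
      · simp
      · rw [pow_succ]
    set B : ℝ := (if e₀.1.1 < e.1.1 ∧ e₀.1.2 < e.1.2 then 1 else t) with hB
    have hB0 : 0 ≤ B := by rw [hB]; split_ifs <;> positivity
    have r1 := rho_eq hθ e₀.1.1 e.1.1
    have r2 := rho_eq hθ e₀.1.2 e.1.2
    have hρ1 := rho_nonneg hθ e₀.1.1 e.1.1
    have hρ2 := rho_nonneg hθ e₀.1.2 e.1.2
    have h2 : (2 : ℝ) ^ sc (e :: e₀ :: l) ≤ (2 : ℝ) ^ sc (e₀ :: l) * (2 *
        (1 / 2) ^ ((e₀.1.1 - e.1.1) + (e₀.1.2 - e.1.2))) := by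
      rw [hsc, zpow_add₀ (by norm_num)]
      apply mul_le_mul_of_nonneg_left _ (by positivity)
      rw [zpow_sub₀ (by norm_num), zpow_one, zpow_natCast, div_eq_mul_inv]
      apply mul_le_mul_of_nonneg_left _ (by norm_num)
      rw [one_div, inv_pow]
      apply inv_anti₀ (by positivity)
      exact pow_le_pow_right₀ (by norm_num) hc
    rw [List.length_cons, hb]
    calc q ^ (l.length + 1 + 1) * (2 : ℝ) ^ sc (e :: e₀ :: l) * (t ^ bad (e₀ :: l) * B) *
          θ ^ (e.1.1 + e.1.2)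
        ≤ q ^ (l.length + 1 + 1) * ((2 : ℝ) ^ sc (e₀ :: l) * (2 *
        (1 / 2) ^ ((e₀.1.1 - e.1.1) + (e₀.1.2 - e.1.2)))) * (t ^ bad (e₀ :: l) * B) *
          θ ^ (e.1.1 + e.1.2) := by
          gcongr
      _ = (q ^ (l.length + 1) * (2 : ℝ) ^ sc (e₀ :: l) * t ^ bad (e₀ :: l)) *
          (q * 2 * (B * (((1 / 2) ^ (e₀.1.1 - e.1.1) * θ ^ e.1.1) *
            ((1 / 2) ^ (e₀.1.2 - e.1.2) * θ ^ e.1.2)))) := by
          rw [pow_add θ, pow_add (1 / 2 : ℝ), pow_succ q (l.length + 1)]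
          ring
      _ = (q ^ (l.length + 1) * (2 : ℝ) ^ sc (e₀ :: l) * t ^ bad (e₀ :: l) *
          θ ^ (e₀.1.1 + e₀.1.2)) * (q * 2 * (B * (rho θ e₀.1.1 e.1.1 *
            rho θ e₀.1.2 e.1.2))) := by
          rw [← r1, ← r2, pow_add θ]
          ring
      _ ≤ wt q t θ (e₀ :: l) * (q * 2 * (B * (rho θ e₀.1.1 e.1.1 * rho θ e₀.1.2 e.1.2))) := by
          apply mul_le_mul_of_nonneg_right h1
          positivity

/-- one step of the transfer operator -/
theorem transfer {q t θ : ℝ} (hq : 0 ≤ q) (ht : 0 ≤ t) (hθ0 : 3 / 4 ≤ θ) (hθ1 : θ < 1)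
    (hsmall : q * 4 * ((1 / (1 - θ)) ^ 2 + t * (6 * (1 / (1 - θ)) + 9)) ≤ 1 / 2)
    (M : ℕ) (e : E) (l : List E) :
    ∑ e' ∈ (range M ×ˢ range M) ×ˢ (univ : Finset Bool), wt q t θ (e' :: e :: l) ≤
      (1 / 2) * wt q t θ (e :: l) := by
  have hθ : 0 < θ := by linarith
  have hw := wt_nonneg hq ht hθ (e :: l)
  set S : ℝ := 1 / (1 - θ) with hS
  have hS0 : 0 < S := by rw [hS]; exact div_pos one_pos (by linarith)
  have h1 : ∑ e' ∈ (range M ×ˢ range M) ×ˢ (univ : Finset Bool), wt q t θ (e' :: e :: l) =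
      wt q t θ (e :: l) * (q * 4 * ∑ x ∈ range M, ∑ b ∈ range M,
        ((if e.1.1 < x ∧ e.1.2 < b then 1 else t) * (rho θ e.1.1 x * rho θ e.1.2 b))) := by
    rw [sum_product, sum_product]
    simp only [wt, Fintype.sum_bool]
    rw [mul_sum, mul_sum]
    apply sum_congr rfl
    intro x _
    rw [mul_sum, mul_sum]
    apply sum_congr rfl
    intro b _
    ring
  rw [h1]
  have p1 := rho_sum_pos hθ hθ1 e.1.1 M
  have p2 := rho_sum_pos hθ hθ1 e.1.2 M
  have n1 := rho_sum_neg hθ0 e.1.1 M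
  have n2 := rho_sum_neg hθ0 e.1.2 M
  rw [← hS] at p1 p2
  set A1 := ∑ x' ∈ (range M).filter (fun x' => e.1.1 < x'), rho θ e.1.1 x' with hA1
  set A2 := ∑ x' ∈ (range M).filter (fun x' => e.1.2 < x'), rho θ e.1.2 x' with hA2
  set N1 := ∑ x' ∈ (range M).filter (fun x' => ¬ e.1.1 < x'), rho θ e.1.1 x' with hN1
  set N2 := ∑ x' ∈ (range M).filter (fun x' => ¬ e.1.2 < x'), rho θ e.1.2 x' with hN2
  have a1 : 0 ≤ A1 := sum_nonneg (fun _ _ => rho_nonneg hθ _ _)
  have a2 : 0 ≤ A2 := sum_nonneg (fun _ _ => rho_nonneg hθ _ _)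
  have m1 : 0 ≤ N1 := sum_nonneg (fun _ _ => rho_nonneg hθ _ _)
  have m2 : 0 ≤ N2 := sum_nonneg (fun _ _ => rho_nonneg hθ _ _)
  have h2 : ∑ x ∈ range M, ∑ b ∈ range M,
        ((if e.1.1 < x ∧ e.1.2 < b then 1 else t) * (rho θ e.1.1 x * rho θ e.1.2 b)) =
      A1 * A2 + t * (A1 * N2 + N1 * A2 + N1 * N2) := by
    rw [← sum_filter_add_sum_filter_not (range M) (fun x => e.1.1 < x)]
    have f1 : ∑ x ∈ (range M).filter (fun x => e.1.1 < x), ∑ b ∈ range M,
        ((if e.1.1 < x ∧ e.1.2 < b then 1 else t) * (rho θ e.1.1 x * rho θ e.1.2 b)) =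
        A1 * (A2 + t * N2) := by
      rw [hA1, sum_mul]
      apply sum_congr rfl
      intro x hx
      have hx' := (mem_filter.1 hx).2
      rw [← sum_filter_add_sum_filter_not (range M) (fun b => e.1.2 < b), mul_add, hA2, hN2,
        mul_sum, mul_sum, mul_sum]
      congr 1
      · apply sum_congr rfl
        intro b hb
        rw [if_pos ⟨hx', (mem_filter.1 hb).2⟩, one_mul]
      · apply sum_congr rfl
        intro b hb
        rw [if_neg (fun h => (mem_filter.1 hb).2 h.2)]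
        ring
    have f2 : ∑ x ∈ (range M).filter (fun x => ¬ e.1.1 < x), ∑ b ∈ range M,
        ((if e.1.1 < x ∧ e.1.2 < b then 1 else t) * (rho θ e.1.1 x * rho θ e.1.2 b)) =
        N1 * (t * (A2 + N2)) := by
      rw [hN1, sum_mul]
      apply sum_congr rfl
      intro x hx
      have hx' := (mem_filter.1 hx).2
      rw [hA2, hN2, sum_filter_add_sum_filter_not, mul_sum, mul_sum]
      apply sum_congr rfl
      intro b hb
      rw [if_neg (fun h => hx' h.1)]
      ring
    rw [f1, f2]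
    ring
  rw [h2]
  have h3 : A1 * A2 + t * (A1 * N2 + N1 * A2 + N1 * N2) ≤ S ^ 2 + t * (6 * S + 9) := by
    have b1 : A1 * A2 ≤ S ^ 2 := by rw [sq]; exact mul_le_mul p1 p2 a2 hS0.le
    have b2 : A1 * N2 ≤ S * 3 := mul_le_mul p1 n2 m2 hS0.le
    have b3 : N1 * A2 ≤ 3 * S := mul_le_mul n1 p2 a2 (by norm_num)
    have b4 : N1 * N2 ≤ 3 * 3 := mul_le_mul n1 n2 m2 (by norm_num)
    have b5 : A1 * N2 + N1 * A2 + N1 * N2 ≤ 6 * S + 9 := by linarith
    have := mul_le_mul_of_nonneg_left b5 ht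
    linarith
  have h4 : q * 4 * (A1 * A2 + t * (A1 * N2 + N1 * A2 + N1 * N2)) ≤ 1 / 2 :=
    (mul_le_mul_of_nonneg_left h3 (by positivity)).trans hsmall
  calc _ ≤ wt q t θ (e :: l) * (1 / 2) := mul_le_mul_of_nonneg_left h4 hw
    _ = _ := by ring

/-- the total weight of the lists of length `k + 1` -/
theorem SL_wt {q t θ : ℝ} (hq : 0 ≤ q) (ht : 0 ≤ t) (hθ0 : 3 / 4 ≤ θ) (hθ1 : θ < 1)
    (hsmall : q * 4 * ((1 / (1 - θ)) ^ 2 + t * (6 * (1 / (1 - θ)) + 9)) ≤ 1 / 2)
    (M k : ℕ) :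
    SL ((range M ×ˢ range M) ×ˢ (univ : Finset Bool)) (k + 1) (wt q t θ) ≤
      4 * q * (M : ℝ) ^ 2 * (1 / 2) ^ k := by
  have hθ : 0 < θ := by linarith
  set Ω := (range M ×ˢ range M) ×ˢ (univ : Finset Bool) with hΩ
  induction k with
  | zero =>
    have h1 : SL Ω (0 + 1) (wt q t θ) = ∑ e ∈ Ω, q * 2 * θ ^ (e.1.1 + e.1.2) := rfl
    rw [h1, pow_zero, mul_one]
    have h2 : ∑ e ∈ Ω, q * 2 * θ ^ (e.1.1 + e.1.2) ≤ ∑ e ∈ Ω, q * 2 := by
      apply sum_le_sum
      intro e _
      have : θ ^ (e.1.1 + e.1.2) ≤ 1 := pow_le_one₀ hθ.le hθ1.le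
      nlinarith
    refine h2.trans (le_of_eq ?_)
    rw [sum_const, nsmul_eq_mul, hΩ, card_product, card_product, card_range, card_univ,
      Fintype.card_bool]
    push_cast
    ring
  | succ k ih =>
    have h1 : SL Ω (k + 1 + 1) (wt q t θ) = SL Ω (k + 1) (fun l => ∑ e' ∈ Ω, wt q t θ (e' :: l)) := by
      rw [SL_sum]
      rfl
    rw [h1]
    have h2 : SL Ω (k + 1) (fun l => ∑ e' ∈ Ω, wt q t θ (e' :: l)) ≤
        SL Ω (k + 1) (fun l => (1 / 2) * wt q t θ l) := by
      apply SL_mono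
      intro l hl _
      cases l with
      | nil => simp at hl
      | cons e l => exact transfer hq ht hθ0 hθ1 hsmall M e l
    refine h2.trans ?_
    rw [SL_mul, pow_succ (1 / 2 : ℝ) k]
    linarith

/-- the first moment bound -/
theorem prob_bad {q t θ : ℝ} (hq : 0 ≤ q) (hq1 : q ≤ 1) (ht : 1 ≤ t) (hθ0 : 3 / 4 ≤ θ)
    (hθ1 : θ < 1)
    (hsmall : q * 4 * ((1 / (1 - θ)) ^ 2 + t * (6 * (1 / (1 - θ)) + 9)) ≤ 1 / 2)
    (M b : ℕ) (hb : 1 ≤ b) :
    EX q ((range M ×ˢ range M) ×ˢ (univ : Finset Bool)) (fun K => ind (BadEv K b)) ≤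
      16 * (M : ℝ) ^ 2 / (t ^ b * θ ^ (2 * M)) := by
  have hθ : 0 < θ := by linarith
  have ht0 : 0 < t := by linarith
  set Ω := (range M ×ˢ range M) ×ˢ (univ : Finset Bool) with hΩ
  have h1 := union_lists hq hq1 Ω (fun l : List E => 0 ≤ sc l ∧ b ≤ bad l)
  refine h1.trans ?_
  have hD : 0 < t ^ b * θ ^ (2 * M) := by positivity
  have h2 : ∀ k ∈ range (Ω.card + 1), SL Ω k (fun l => q ^ k * ind (0 ≤ sc l ∧ b ≤ bad l)) ≤
      (1 / (t ^ b * θ ^ (2 * M))) * (8 * (M : ℝ) ^ 2 * (1 / 2) ^ k) := by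
    intro k _
    cases k with
    | zero =>
      have : SL Ω 0 (fun l => q ^ 0 * ind (0 ≤ sc l ∧ b ≤ bad l)) = 0 := by
        change q ^ 0 * ind (0 ≤ sc [] ∧ b ≤ bad []) = 0
        rw [ind_false, mul_zero]
        simp only [bad]
        omega
      rw [this]
      positivity
    | succ k =>
      have h3 := SL_wt hq ht0.le hθ0 hθ1 hsmall M k
      rw [← hΩ] at h3
      have h4 : SL Ω (k + 1) (fun l => q ^ (k + 1) * ind (0 ≤ sc l ∧ b ≤ bad l)) ≤
          SL Ω (k + 1) (fun l => (1 / (t ^ b * θ ^ (2 * M))) * wt q t θ l) := by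
        apply SL_mono
        intro l hl hm
        by_cases hP : 0 ≤ sc l ∧ b ≤ bad l
        · rw [ind_true hP, mul_one, div_mul_eq_mul_div, one_mul, le_div_iff₀ hD]
          cases l with
          | nil => simp at hl
          | cons e l =>
            have h5 := wt_ge hq ht0.le hθ e l
            have hk : l.length + 1 = k + 1 := by simpa using hl
            rw [hk] at h5
            refine le_trans ?_ h5
            have s1 : (1 : ℝ) ≤ (2 : ℝ) ^ sc (e :: l) := one_le_zpow₀ (by norm_num) hP.1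
            have s2 : t ^ b ≤ t ^ bad (e :: l) := pow_le_pow_right₀ ht hP.2
            have s3 : θ ^ (2 * M) ≤ θ ^ (e.1.1 + e.1.2) := by
              apply pow_le_pow_of_le_one hθ.le hθ1.le
              have := hm e List.mem_cons_self
              rw [hΩ, mem_product, mem_product, mem_range, mem_range] at this
              omega
            calc q ^ (k + 1) * (t ^ b * θ ^ (2 * M)) = q ^ (k + 1) * 1 * t ^ b * θ ^ (2 * M) := by
                  ring
              _ ≤ q ^ (k + 1) * (2 : ℝ) ^ sc (e :: l) * t ^ bad (e :: l) *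
                  θ ^ (e.1.1 + e.1.2) := by
                  gcongr
        · rw [ind_false hP, mul_zero]
          exact mul_nonneg (by positivity) (wt_nonneg hq ht0.le hθ l)
      refine h4.trans ?_
      rw [SL_mul]
      apply mul_le_mul_of_nonneg_left _ (by positivity)
      refine h3.trans ?_
      rw [pow_succ (1 / 2 : ℝ) k]
      have : q * ((M : ℝ) ^ 2 * (1 / 2) ^ k) ≤ 1 * ((M : ℝ) ^ 2 * (1 / 2) ^ k) :=
        mul_le_mul_of_nonneg_right hq1 (by positivity)
      nlinarith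
  refine (sum_le_sum h2).trans ?_
  rw [← mul_sum, ← mul_sum]
  have h6 : ∑ k ∈ range (Ω.card + 1), ((1 : ℝ) / 2) ^ k ≤ 2 := by
    have := geom_inj (c := 1 / 2) (by norm_num) (by norm_num) (range (Ω.card + 1)) (fun k => k)
      (fun a _ b _ h => h)
    norm_num at this ⊢
    exact this
  calc (1 / (t ^ b * θ ^ (2 * M))) * (8 * (M : ℝ) ^ 2 * ∑ k ∈ range (Ω.card + 1), ((1 : ℝ) / 2) ^ k)
      ≤ (1 / (t ^ b * θ ^ (2 * M))) * (8 * (M : ℝ) ^ 2 * 2) := by gcongr
    _ = 16 * (M : ℝ) ^ 2 / (t ^ b * θ ^ (2 * M)) := by ring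

end Pool.Agent.V11321.OF
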