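import Pool.Agent.V11321.OF.Cut

/-!
# Lower bound for the flow: height functions
-/

set_option autoImplicit false
set_option linter.unusedSectionVars false
set_option linter.unusedVariables false

open Finset

namespace Pool.Agent.V11321.OF

/-- the edge carries flow for the height function `B` (heights in the coordinates `(x, b)`) -/
def Used (M : ℕ) (B : ℕ → ℕ → ℤ) (e : E) : Prop :=
  (e.2 = true ∧ 1 ≤ e.1.1 ∧ e.1.1 < M ∧ e.1.2 < M ∧
    B e.1.1 (M - 1 - e.1.2) = B (e.1.1 - 1) (M - 1 - e.1.2)) ∨
  (e.2 = false ∧ e.1.1 < M ∧ 1 ≤ e.1.2 ∧ e.1.2 < M ∧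
    B e.1.1 (M - e.1.2) = B e.1.1 (M - 1 - e.1.2))

/-- interior vertices -/
def Int' (M : ℕ) (v : ℕ × ℕ) : Prop := 1 ≤ v.1 ∧ v.1 < M ∧ 1 ≤ v.2 ∧ v.2 < M

open Classical in
/-- the edge following an edge -/
noncomputable def nxt (M : ℕ) (B : ℕ → ℕ → ℤ) (e : E) : E :=
  if Used M B (head e, e.2) then (head e, e.2) else (head e, !e.2)

open Classical in
/-- the path following an edge -/
noncomputable def pathFrom (M : ℕ) (B : ℕ → ℕ → ℤ) : ℕ → E → List E
  | 0, e => [e]
  | k + 1, e => if Int' M (head e) then e :: pathFrom M B k (nxt M B e) else [e]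

/-- admissible height functions -/
structure Hgt (M : ℕ) (O : Finset E) (B : ℕ → ℕ → ℤ) : Prop where
  e0 : ∀ x b, x + 1 < M → b < M → B x b ≤ B (x + 1) b
  e1 : ∀ x b, x + 1 < M → b < M → B (x + 1) b ≤ B x b + 1
  e2 : ∀ x b, x + 1 < M → b < M → ((x + 1, M - 1 - b), true) ∉ O → B (x + 1) b = B x b + 1
  s0 : ∀ x b, x < M → b + 1 < M → B x b ≤ B x (b + 1)
  s1 : ∀ x b, x < M → b + 1 < M → B x (b + 1) ≤ B x b + 1
  s2 : ∀ x b, x < M → b + 1 < M → ((x, M - 1 - b), false) ∉ O → B x (b + 1) = B x b + 1

variable {M : ℕ} {O : Finset E} {B : ℕ → ℕ → ℤ}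

theorem used_open (h : Hgt M O B) {e : E} (he : Used M B e) : e ∈ O := by
  obtain ⟨⟨x, y⟩, d⟩ := e
  rcases he with ⟨h1, h2, h3, h4, h5⟩ | ⟨h1, h2, h3, h4, h5⟩
  · dsimp only at h1 h2 h3 h4 h5
    subst h1
    by_contra hc
    have := h.e2 (x - 1) (M - 1 - y) (by omega) (by omega) (by
      rw [show M - 1 - (M - 1 - y) = y by omega, show x - 1 + 1 = x by omega]; exact hc)
    rw [show x - 1 + 1 = x by omega] at this
    omega
  · dsimp only at h1 h2 h3 h4 h5
    subst h1
    by_contra hc
    have := h.s2 x (M - 1 - y) (by omega) (by omega) (by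
      rw [show M - 1 - (M - 1 - y) = y by omega]; exact hc)
    rw [show M - 1 - y + 1 = M - y by omega] at this
    omega

theorem nxt_tail (e : E) : (nxt M B e).1 = head e := by
  unfold nxt; split_ifs <;> rfl

/-- conservation: an incoming used edge is followed by a used edge -/
theorem used_nxt (h : Hgt M O B) {e : E} (he : Used M B e) (hi : Int' M (head e)) :
    Used M B (nxt M B e) := by
  unfold nxt
  split_ifs with hu
  · exact hu
  · obtain ⟨⟨x, y⟩, d⟩ := e
    unfold Int' head at hi
    cases d
    · -- the edge comes from the left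
      simp only [head, Bool.false_eq_true, if_false] at hi hu ⊢
      simp only [Used, Bool.false_eq_true, false_and, false_or, true_and] at he hu
      left
      simp only [Bool.not_false, true_and]
      refine ⟨by omega, by omega, by omega, ?_⟩
      have n1 := h.e0 x (M - 1 - y) (by omega) (by omega)
      have n2 := h.e1 x (M - 1 - y) (by omega) (by omega)
      have n3 := h.s0 (x + 1) (M - 1 - y) (by omega) (by omega)
      have n4 := h.e0 x (M - y) (by omega) (by omega)
      have n5 := h.e1 x (M - y) (by omega) (by omega)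
      have n6 := h.s1 (x + 1) (M - 1 - y) (by omega) (by omega)
      rw [show M - 1 - y + 1 = M - y by omega] at n3 n6
      have he' := he.2.2.2
      have hu' : ¬ B (x + 1) (M - y) = B (x + 1) (M - 1 - y) :=
        fun hh => hu ⟨by omega, by omega, by omega, hh⟩
      rw [show x + 1 - 1 = x by omega]
      omega
    · -- the edge comes from below
      simp only [head, if_true] at hi hu ⊢
      simp only [Used, Bool.true_eq_false, false_and, or_false, true_and] at he hu
      right
      simp only [Bool.not_true, true_and]
      refine ⟨by omega, by omega, by omega, ?_⟩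
      have n1 := h.s0 (x - 1) (M - 1 - (y + 1)) (by omega) (by omega)
      have n2 := h.s1 (x - 1) (M - 1 - (y + 1)) (by omega) (by omega)
      have n3 := h.s0 x (M - 1 - (y + 1)) (by omega) (by omega)
      have n4 := h.e0 (x - 1) (M - 1 - (y + 1)) (by omega) (by omega)
      have n5 := h.e1 (x - 1) (M - 1 - (y + 1)) (by omega) (by omega)
      rw [show M - 1 - (y + 1) + 1 = M - 1 - y by omega] at n1 n2 n3
      rw [show x - 1 + 1 = x by omega] at n4 n5
      have he' := he.2.2.2
      have hu' : ¬ B x (M - 1 - (y + 1)) = B (x - 1) (M - 1 - (y + 1)) :=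
        fun hh => hu ⟨by omega, by omega, by omega, hh⟩
      rw [show M - (y + 1) = M - 1 - y by omega]
      omega

theorem nxt_inj (h : Hgt M O B) {e e' : E} (he : Used M B e) (he' : Used M B e')
    (hi : Int' M (head e)) (hn : nxt M B e = nxt M B e') : e = e' := by
  have hh : head e = head e' := by rw [← nxt_tail (M := M) (B := B) e, hn, nxt_tail]
  by_cases hd : e.2 = e'.2
  · obtain ⟨⟨x, y⟩, d⟩ := e
    obtain ⟨⟨x', y'⟩, d'⟩ := e'
    dsimp only at hd
    subst hd
    unfold head at hh
    cases d
    · simp only [Bool.false_eq_true, if_false, Prod.mk.injEq] at hh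
      rw [show x = x' by omega, hh.2]
    · simp only [if_true, Prod.mk.injEq] at hh
      rw [hh.1, show y = y' by omega]
  · exfalso
    -- both incoming edges are used, so both outgoing edges are used
    have key : ∀ x y : ℕ, Used M B ((x, y + 1), false) → Used M B ((x + 1, y), true) →
        Int' M (x + 1, y + 1) → Used M B ((x + 1, y + 1), false) ∧
        Used M B ((x + 1, y + 1), true) := by
      intro x y h1 h2 h3
      unfold Int' at h3
      dsimp only at h3
      simp only [Used, Bool.false_eq_true, Bool.true_eq_false, false_and, false_or, or_false,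
        true_and] at h1 h2 ⊢
      have n1 := h.e0 x (M - 1 - (y + 1)) (by omega) (by omega)
      have n3 := h.s0 (x + 1) (M - 1 - (y + 1)) (by omega) (by omega)
      rw [show M - 1 - (y + 1) + 1 = M - 1 - y by omega] at n3
      rw [show x + 1 - 1 = x by omega] at *
      rw [show M - (y + 1) = M - 1 - y by omega] at *
      have a1 := h1.2.2.2
      have a2 := h2.2.2.2
      exact ⟨⟨by omega, by omega, by omega, by omega⟩, ⟨by omega, by omega, by omega, by omega⟩⟩
    obtain ⟨⟨x, y⟩, d⟩ := e
    obtain ⟨⟨x', y'⟩, d'⟩ := e'
    cases d <;> cases d'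
    · exact hd rfl
    · simp only [head, Bool.false_eq_true, if_false, if_true, Prod.mk.injEq] at hh hi
      obtain ⟨hx, hy⟩ := hh
      subst hx hy
      obtain ⟨k1, k2⟩ := key x y' he he' hi
      simp only [nxt, head, Bool.false_eq_true, if_false, if_true, k1, k2] at hn
      simp at hn
    · simp only [head, Bool.false_eq_true, if_false, if_true, Prod.mk.injEq] at hh hi
      obtain ⟨hx, hy⟩ := hh
      subst hx
      subst hy
      obtain ⟨k1, k2⟩ := key x' y he' he hi
      simp only [nxt, head, Bool.false_eq_true, if_false, if_true, k1, k2] at hn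
      simp at hn
    · exact hd rfl

theorem pathFrom_head (k : ℕ) (e : E) : (pathFrom M B k e).head? = some e := by
  cases k with
  | zero => rfl
  | succ k => rw [pathFrom]; split_ifs <;> rfl

theorem pathFrom_chain (k : ℕ) (e : E) :
    (pathFrom M B k e).IsChain (fun e f => head e = f.1) := by
  induction k generalizing e with
  | zero => exact List.isChain_singleton _
  | succ k ih =>
    rw [pathFrom]
    split_ifs
    · rw [List.isChain_cons]
      refine ⟨?_, ih _⟩
      intro f hf
      rw [pathFrom_head] at hf
      simp only [Option.mem_def, Option.some.injEq] at hf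
      rw [← hf, nxt_tail]
    · exact List.isChain_singleton _

theorem pathFrom_used (h : Hgt M O B) (k : ℕ) (e : E) (he : Used M B e) :
    ∀ f ∈ pathFrom M B k e, Used M B f := by
  induction k generalizing e with
  | zero =>
    intro f hf
    rw [pathFrom, List.mem_singleton] at hf
    rw [hf]
    exact he
  | succ k ih =>
    intro f hf
    rw [pathFrom] at hf
    split_ifs at hf with hi
    · rcases List.mem_cons.1 hf with rfl | hf
      · exact he
      · exact ih _ (used_nxt h he hi) f hf
    · rw [List.mem_singleton] at hf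
      rw [hf]
      exact he

theorem head_cases (h : Hgt M O B) {e : E} (he : Used M B e) :
    Int' M (head e) ∨ inT (M + 1) (head e) := by
  obtain ⟨⟨x, y⟩, d⟩ := e
  cases d
  · simp only [Used, Bool.false_eq_true, false_and, false_or, true_and] at he
    simp only [Int', inT, head, Bool.false_eq_true, if_false]
    omega
  · simp only [Used, Bool.true_eq_false, false_and, or_false, true_and] at he
    simp only [Int', inT, head, if_true]
    omega

theorem pathFrom_last (h : Hgt M O B) (k : ℕ) (e : E) (he : Used M B e)
    (hk : 2 * M ≤ k + (e.1.1 + e.1.2)) :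
    ∃ f, (pathFrom M B k e).getLast? = some f ∧ inT (M + 1) (head f) := by
  induction k generalizing e with
  | zero =>
    exfalso
    rcases he with he | he <;> omega
  | succ k ih =>
    rw [pathFrom]
    split_ifs with hi
    · have hsum : (nxt M B e).1.1 + (nxt M B e).1.2 = e.1.1 + e.1.2 + 1 := by
        rw [nxt_tail]
        unfold head
        split_ifs
        · dsimp only; omega
        · dsimp only; omega
      obtain ⟨f, h1, h2⟩ := ih (nxt M B e) (used_nxt h he hi) (by omega)
      refine ⟨f, ?_, h2⟩
      rw [List.getLast?_cons, h1]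
      rfl
    · exact ⟨e, rfl, (head_cases h he).resolve_left hi⟩

theorem pathFrom_mem (k : ℕ) (e f : E) (hf : f ∈ pathFrom M B k e) :
    ∃ i, f = (nxt M B)^[i] e ∧ ∀ j < i, Int' M (head ((nxt M B)^[j] e)) := by
  induction k generalizing e with
  | zero =>
    rw [pathFrom, List.mem_singleton] at hf
    exact ⟨0, hf, by simp⟩
  | succ k ih =>
    rw [pathFrom] at hf
    split_ifs at hf with hi
    · rcases List.mem_cons.1 hf with rfl | hf
      · exact ⟨0, rfl, by simp⟩
      · obtain ⟨i, h1, h2⟩ := ih _ hf
        refine ⟨i + 1, by rw [Function.iterate_succ_apply]; exact h1, ?_⟩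
        intro j hj
        cases j with
        | zero => exact hi
        | succ j =>
          rw [Function.iterate_succ_apply]
          exact h2 j (by omega)
    · rw [List.mem_singleton] at hf
      exact ⟨0, hf, by simp⟩

theorem iter_used (h : Hgt M O B) {e : E} (he : Used M B e) (i : ℕ)
    (hi : ∀ j < i, Int' M (head ((nxt M B)^[j] e))) : Used M B ((nxt M B)^[i] e) := by
  induction i with
  | zero => exact he
  | succ i ih =>
    rw [Function.iterate_succ_apply']
    exact used_nxt h (ih (fun j hj => hi j (by omega))) (hi i (by omega))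

theorem iter_inj (h : Hgt M O B) {e e' : E} (he : Used M B e) (he' : Used M B e')
    (hs : ¬ Int' M e.1) (hs' : ¬ Int' M e'.1) (i j : ℕ)
    (hi : ∀ k < i, Int' M (head ((nxt M B)^[k] e)))
    (hj : ∀ k < j, Int' M (head ((nxt M B)^[k] e')))
    (heq : (nxt M B)^[i] e = (nxt M B)^[j] e') : e = e' := by
  induction i generalizing j with
  | zero =>
    cases j with
    | zero => exact heq
    | succ j =>
      exfalso
      apply hs
      rw [Function.iterate_zero_apply, Function.iterate_succ_apply'] at heq
      rw [heq, nxt_tail]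
      exact hj j (by omega)
  | succ i ih =>
    cases j with
    | zero =>
      exfalso
      apply hs'
      rw [Function.iterate_zero_apply, Function.iterate_succ_apply'] at heq
      rw [← heq, nxt_tail]
      exact hi i (by omega)
    | succ j =>
      rw [Function.iterate_succ_apply', Function.iterate_succ_apply'] at heq
      have hi' : ∀ k < i, Int' M (head ((nxt M B)^[k] e)) := fun k hk => hi k (by omega)
      have hj' : ∀ k < j, Int' M (head ((nxt M B)^[k] e')) := fun k hk => hj k (by omega)
      exact ih j hi' hj' (nxt_inj h (iter_used h he i hi') (iter_used h he' j hj')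
        (hi i (by omega)) heq)

open Classical in
/-- the flow is at least `2 (M - 1)` minus the height of the last face -/
theorem V_ge (hM : 1 ≤ M) (hO : O ⊆ edges (M + 1)) (h : Hgt M O B) :
    2 * ((M : ℤ) - 1) - (B (M - 1) (M - 1) - B 0 0) ≤ V (M + 1) O := by
  set S1 : Finset ℕ := (range (M - 1)).filter (fun b => B 0 (b + 1) = B 0 b) with hS1
  set S2 : Finset ℕ := (range (M - 1)).filter (fun x => B (x + 1) (M - 1) = B x (M - 1)) with hS2
  have c1 : (S1.card : ℤ) = (M - 1 : ℕ) - (B 0 (M - 1) - B 0 0) := by
    rw [hS1, card_filter]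
    push_cast
    rw [sum_congr rfl (g := fun b => (1 : ℤ) - (B 0 (b + 1) - B 0 b))]
    · rw [sum_sub_distrib, sum_range_sub (fun b => B 0 b)]
      simp
    · intro b hb
      rw [mem_range] at hb
      have a1 := h.s0 0 b (by omega) (by omega)
      have a2 := h.s1 0 b (by omega) (by omega)
      split_ifs with hh <;> omega
  have c2 : (S2.card : ℤ) = (M - 1 : ℕ) - (B (M - 1) (M - 1) - B 0 (M - 1)) := by
    rw [hS2, card_filter]
    push_cast
    rw [sum_congr rfl (g := fun x => (1 : ℤ) - (B (x + 1) (M - 1) - B x (M - 1)))]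
    · rw [sum_sub_distrib, sum_range_sub (fun x => B x (M - 1))]
      simp
    · intro x hx
      rw [mem_range] at hx
      have a1 := h.e0 x (M - 1) (by omega) (by omega)
      have a2 := h.e1 x (M - 1) (by omega) (by omega)
      split_ifs with hh <;> omega
  set St : Finset E := S1.image (fun b => ((0, M - 1 - b), false)) ∪
    S2.image (fun x => ((x + 1, 0), true)) with hSt
  have cSt : St.card = S1.card + S2.card := by
    rw [hSt, card_union_of_disjoint, card_image_of_injOn, card_image_of_injOn]
    · intro a _ b _ hab
      simpa using hab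
    · intro a ha b hb hab
      rw [Finset.mem_coe, hS1, mem_filter, mem_range] at ha hb
      simp only [Prod.mk.injEq, and_true, true_and] at hab
      omega
    · rw [disjoint_left]
      intro e he1 he2
      obtain ⟨a, _, ha⟩ := mem_image.1 he1
      obtain ⟨b, _, hb⟩ := mem_image.1 he2
      rw [← hb] at ha
      simp at ha
  have hStp : ∀ e ∈ St, Used M B e ∧ inS (M + 1) e.1 ∧ ¬ Int' M e.1 := by
    intro e he
    rw [hSt, mem_union] at he
    rcases he with he | he
    · obtain ⟨b, hb, rfl⟩ := mem_image.1 he
      rw [hS1, mem_filter, mem_range] at hb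
      refine ⟨Or.inr ⟨rfl, by dsimp only; omega, by dsimp only; omega, by dsimp only; omega, ?_⟩,
        Or.inl ⟨rfl, by dsimp only; omega⟩, ?_⟩
      · dsimp only
        rw [show M - (M - 1 - b) = b + 1 by omega, show M - 1 - (M - 1 - b) = b by omega]
        exact hb.2
      · unfold Int'
        dsimp only
        omega
    · obtain ⟨x, hx, rfl⟩ := mem_image.1 he
      rw [hS2, mem_filter, mem_range] at hx
      refine ⟨Or.inl ⟨rfl, by dsimp only; omega, by dsimp only; omega, by dsimp only; omega, ?_⟩,
        Or.inr ⟨rfl, by dsimp only; omega, by dsimp only; omega⟩, ?_⟩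
      · dsimp only
        rw [show M - 1 - 0 = M - 1 by omega, show x + 1 - 1 = x by omega]
        exact hx.2
      · unfold Int'
        dsimp only
        omega
  have hV : St.card ≤ V (M + 1) O := by
    apply le_csSup (V_bdd rfl hO)
    refine ⟨fun i => pathFrom M B (2 * M) (St.equivFin.symm i).1, ?_, ?_⟩
    · intro i
      obtain ⟨h1, h2, h3⟩ := hStp _ (St.equivFin.symm i).2
      refine ⟨fun e he => used_open h (pathFrom_used h _ _ h1 e he), pathFrom_chain _ _,
        ⟨_, pathFrom_head _ _, h2⟩, pathFrom_last h _ _ h1 (by omega)⟩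
    · intro i j hij f hf1 hf2
      apply hij
      obtain ⟨a, a1, a2⟩ := pathFrom_mem _ _ f hf1
      obtain ⟨b, b1, b2⟩ := pathFrom_mem _ _ f hf2
      obtain ⟨h1, h2, h3⟩ := hStp _ (St.equivFin.symm i).2
      obtain ⟨h1', h2', h3'⟩ := hStp _ (St.equivFin.symm j).2
      have := iter_inj h h1 h1' h3 h3' a b a2 b2 (a1.symm.trans b1)
      exact St.equivFin.symm.injective (Subtype.ext this)
  omega

end Pool.Agent.V11321.OF
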