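import Pool.Agent.V11321.OF.EX

/-!
# Strict last passage percolation with boundary increments
-/

set_option autoImplicit false
set_option linter.unusedSectionVars false

open Finset

namespace Pool.Agent.V11321.OF

/-- last passage values: marks `A`, horizontal increments `I` on the bottom, vertical increments `J`
on the left -/
def G (A : Finset (ℕ × ℕ)) (I J : Finset ℕ) : ℕ → ℕ → ℕ
  | 0, 0 => 0
  | i + 1, 0 => G A I J i 0 + (if i ∈ I then 1 else 0)
  | 0, j + 1 => G A I J 0 j + (if j ∈ J then 1 else 0)
  | i + 1, j + 1 => max (max (G A I J i (j + 1)) (G A I J (i + 1) j))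
      (G A I J i j + (if (i, j) ∈ A then 1 else 0))

variable {A A' : Finset (ℕ × ℕ)} {I I' J J' : Finset ℕ}

theorem G_00 : G A I J 0 0 = 0 := by rw [G]

theorem G_s0 (i : ℕ) : G A I J (i + 1) 0 = G A I J i 0 + (if i ∈ I then 1 else 0) := by rw [G]

theorem G_0s (j : ℕ) : G A I J 0 (j + 1) = G A I J 0 j + (if j ∈ J then 1 else 0) := by rw [G]

theorem G_ss (i j : ℕ) : G A I J (i + 1) (j + 1) =
    max (max (G A I J i (j + 1)) (G A I J (i + 1) j))
      (G A I J i j + (if (i, j) ∈ A then 1 else 0)) := by rw [G]

theorem G_le_right (i j : ℕ) : G A I J i j ≤ G A I J (i + 1) j := by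
  cases j with
  | zero => rw [G]; omega
  | succ j => rw [G]; omega

theorem G_le_up (i j : ℕ) : G A I J i j ≤ G A I J i (j + 1) := by
  cases i with
  | zero => rw [G]; omega
  | succ i => rw [G]; omega

theorem G_mono {i j i' j' : ℕ} (hi : i ≤ i') (hj : j ≤ j') : G A I J i j ≤ G A I J i' j' := by
  have h1 : G A I J i j ≤ G A I J i' j :=
    monotone_nat_of_le_succ (f := fun i => G A I J i j) (fun i => G_le_right i j) hi
  have h2 : G A I J i' j ≤ G A I J i' j' :=
    monotone_nat_of_le_succ (f := fun j => G A I J i' j) (fun j => G_le_up i' j) hj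
  exact h1.trans h2

theorem G_step (i j : ℕ) :
    G A I J (i + 1) j ≤ G A I J i j + 1 ∧ G A I J i (j + 1) ≤ G A I J i j + 1 := by
  induction i generalizing j with
  | zero =>
    induction j with
    | zero =>
      constructor
      · rw [G_s0]; split_ifs <;> omega
      · rw [G_0s]; split_ifs <;> omega
    | succ j ih =>
      constructor
      · have h1 := ih.1
        have h2 : G A I J 0 j ≤ G A I J 0 (j + 1) := G_le_up 0 j
        rw [G_ss]
        split_ifs <;> omega
      · rw [G_0s]; split_ifs <;> omega
  | succ i ih =>
    induction j with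
    | zero =>
      constructor
      · rw [G_s0]; split_ifs <;> omega
      · have h1 := (ih 0).2
        have h2 : G A I J i 0 ≤ G A I J (i + 1) 0 := G_le_right i 0
        rw [G_ss]
        split_ifs <;> omega
    | succ j ihj =>
      have a1 := ihj.1
      have a2 := (ih (j + 1)).2
      have b1 : G A I J (i + 1) j ≤ G A I J (i + 1) (j + 1) := G_le_up (i + 1) j
      have b2 : G A I J i (j + 1) ≤ G A I J (i + 1) (j + 1) := G_le_right i (j + 1)
      constructor
      · rw [G_ss (i + 1) j]
        split_ifs <;> omega
      · rw [G_ss i (j + 1)]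
        split_ifs <;> omega

theorem G_mono_data (hA : A ⊆ A') (hI : I ⊆ I') (hJ : J ⊆ J') (i j : ℕ) :
    G A I J i j ≤ G A' I' J' i j := by
  have hif : ∀ {P Q : Prop} [Decidable P] [Decidable Q], (P → Q) →
      (if P then 1 else 0 : ℕ) ≤ if Q then 1 else 0 := by
    intro P Q _ _ h
    split_ifs <;> first | omega | (exfalso; tauto)
  induction i generalizing j with
  | zero =>
    induction j with
    | zero => simp [G]
    | succ j ih =>
      rw [G, G]
      exact add_le_add ih (hif (fun h => hJ h))
  | succ i ih =>
    induction j with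
    | zero =>
      rw [G, G]
      exact add_le_add (ih 0) (hif (fun h => hI h))
    | succ j ihj =>
      rw [G, G]
      exact max_le_max (max_le_max (ih (j + 1)) ihj) (add_le_add (ih j) (hif (fun h => hA h)))

theorem G_le_add (i j : ℕ) : G A I J i j ≤ i + j := by
  induction i with
  | zero =>
    induction j with
    | zero => simp [G]
    | succ j ih =>
      have := (G_step (A := A) (I := I) (J := J) 0 j).2
      omega
  | succ i ih =>
    have := (G_step (A := A) (I := I) (J := J) i j).1
    omega

/-- bottom boundary values -/
theorem G_bot (i : ℕ) : G A I J i 0 = (I ∩ range i).card := by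
  induction i with
  | zero => simp [G]
  | succ i ih =>
    rw [G, ih, range_add_one]
    split_ifs with h
    · rw [inter_insert_of_mem h, card_insert_of_notMem (by simp)]
    · rw [inter_insert_of_notMem h]
      omega

/-- left boundary values -/
theorem G_left (j : ℕ) : G A I J 0 j = (J ∩ range j).card := by
  induction j with
  | zero => simp [G]
  | succ j ih =>
    rw [G, ih, range_add_one]
    split_ifs with h
    · rw [inter_insert_of_mem h, card_insert_of_notMem (by simp)]
    · rw [inter_insert_of_notMem h]
      omega

/-- the values depend only on the data inside -/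
theorem G_congr {M N : ℕ} (hA : ∀ i < M, ∀ j < N, (i, j) ∈ A ↔ (i, j) ∈ A')
    (hI : ∀ i < M, i ∈ I ↔ i ∈ I') (hJ : ∀ j < N, j ∈ J ↔ j ∈ J') {i j : ℕ} (hi : i ≤ M)
    (hj : j ≤ N) : G A I J i j = G A' I' J' i j := by
  induction i generalizing j with
  | zero =>
    induction j with
    | zero => simp [G]
    | succ j ih =>
      rw [G, G, ih (by omega)]
      simp only [hJ j (by omega)]
  | succ i ih =>
    induction j with
    | zero =>
      rw [G, G, ih (by omega) (by omega)]
      simp only [hI i (by omega)]
    | succ j ihj =>
      rw [G, G, ih (by omega) hj, ih (by omega) (by omega), ihj (by omega)]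
      simp only [hA i (by omega) j (by omega)]

/-- transposition -/
theorem G_swap (i j : ℕ) : G (A.image Prod.swap) J I j i = G A I J i j := by
  have hsw : ∀ i j : ℕ, (j, i) ∈ A.image Prod.swap ↔ (i, j) ∈ A := by
    intro i j
    rw [mem_image]
    constructor
    · rintro ⟨⟨x, y⟩, h, e⟩
      simp only [Prod.swap_prod_mk, Prod.mk.injEq] at e
      obtain ⟨rfl, rfl⟩ := e
      exact h
    · intro h
      exact ⟨(i, j), h, rfl⟩
  induction i generalizing j with
  | zero =>
    induction j with
    | zero => simp [G]
    | succ j ih => rw [G, G, ih]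
  | succ i ih =>
    induction j with
    | zero => rw [G, G, ih]
    | succ j ihj =>
      rw [G, G, ih, ih, ihj, max_comm (G A I J (i + 1) j) (G A I J i (j + 1))]
      simp only [hsw]

/-! ### Rows -/

/-- new horizontal increment -/
def fI (i J w : Bool) : Bool := !J && (i || w)

/-- new vertical increment -/
def fJ (i J w : Bool) : Bool := !i && (J || w)

/-- the increments above a row, from those below it, the increment on its left and its marks -/
def row (I : Finset ℕ) (b : Bool) (W : Finset ℕ) : ℕ → Finset ℕ × Bool
  | 0 => (∅, b)
  | m + 1 =>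
    (if fI (decide (m ∈ I)) (row I b W m).2 (decide (m ∈ W)) then insert m (row I b W m).1
      else (row I b W m).1, fJ (decide (m ∈ I)) (row I b W m).2 (decide (m ∈ W)))

theorem row_congr {I I' W W' : Finset ℕ} (b : Bool) {M : ℕ} (hI : ∀ i < M, i ∈ I ↔ i ∈ I')
    (hW : ∀ i < M, i ∈ W ↔ i ∈ W') : row I b W M = row I' b W' M := by
  induction M with
  | zero => rfl
  | succ M ih =>
    have h := ih (fun i hi => hI i (by omega)) (fun i hi => hW i (by omega))
    rw [row, row, h]
    simp only [hI M (by omega), hW M (by omega)]

theorem row_subset (I : Finset ℕ) (b : Bool) (W : Finset ℕ) (M : ℕ) :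
    (row I b W M).1 ⊆ range M := by
  induction M with
  | zero => simp [row]
  | succ M ih =>
    rw [row]
    dsimp only
    split_ifs
    · rw [range_add_one]
      exact insert_subset_insert M ih
    · exact ih.trans (range_subset_range.2 (by omega))

/-- the set of the horizontal increments on level `j` -/
def H (A : Finset (ℕ × ℕ)) (I J : Finset ℕ) (M j : ℕ) : Finset ℕ :=
  (range M).filter (fun i => G A I J (i + 1) j ≠ G A I J i j)

theorem card_H (A : Finset (ℕ × ℕ)) (I J : Finset ℕ) (M j : ℕ) :
    G A I J M j = G A I J 0 j + (H A I J M j).card := by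
  unfold H
  induction M with
  | zero => simp
  | succ M ih =>
    have h1 := G_le_right (A := A) (I := I) (J := J) M j
    have h2 := (G_step (A := A) (I := I) (J := J) M j).1
    rw [range_add_one, filter_insert]
    split_ifs with h
    · rw [card_insert_of_notMem (by simp)]
      omega
    · push Not at h
      omega

theorem H_zero (A : Finset (ℕ × ℕ)) (I J : Finset ℕ) (M : ℕ) :
    H A I J M 0 = I ∩ range M := by
  ext i
  simp only [H, mem_filter, mem_inter, mem_range]
  rw [G]
  split_ifs with h <;> simp [h]

/-- the increments on the next level are given by `row` -/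
theorem row_H (A : Finset (ℕ × ℕ)) (I J : Finset ℕ) (M j : ℕ) :
    row (H A I J M j) (decide (j ∈ J)) ((range M).filter (fun i => (i, j) ∈ A)) M =
      (H A I J M (j + 1), decide (G A I J M (j + 1) ≠ G A I J M j)) := by
  suffices h : ∀ m ≤ M, row (H A I J M j) (decide (j ∈ J))
      ((range M).filter (fun i => (i, j) ∈ A)) m =
      ((range m).filter (fun i => G A I J (i + 1) (j + 1) ≠ G A I J i (j + 1)),
        decide (G A I J m (j + 1) ≠ G A I J m j)) by
    exact h M le_rfl
  intro m
  induction m with
  | zero =>
    intro _
    rw [row]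
    simp only [range_zero, filter_empty, Prod.mk.injEq, true_and]
    rw [G]
    split_ifs with h <;> simp [h]
  | succ m ih =>
    intro hm
    rw [row, ih (by omega)]
    have e1 : (m ∈ H A I J M j) ↔ G A I J (m + 1) j ≠ G A I J m j := by
      simp only [H, mem_filter, mem_range]
      constructor
      · exact fun h => h.2
      · exact fun h => ⟨by omega, h⟩
    have e2 : (m ∈ (range M).filter (fun i => (i, j) ∈ A)) ↔ (m, j) ∈ A := by
      simp only [mem_filter, mem_range]
      constructor
      · exact fun h => h.2
      · exact fun h => ⟨by omega, h⟩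
    simp only [e1, e2]
    have a1 := G_le_right (A := A) (I := I) (J := J) m j
    have a2 := (G_step (A := A) (I := I) (J := J) m j).1
    have a3 := G_le_up (A := A) (I := I) (J := J) m j
    have a4 := (G_step (A := A) (I := I) (J := J) m j).2
    have key : G A I J (m + 1) (j + 1) = max (max (G A I J m (j + 1)) (G A I J (m + 1) j))
      (G A I J m j + (if (m, j) ∈ A then 1 else 0)) := by rw [G]
    rw [range_add_one, filter_insert]
    by_cases c1 : G A I J (m + 1) j = G A I J m j
    · by_cases c2 : G A I J m (j + 1) = G A I J m j
      · by_cases c3 : (m, j) ∈ A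
        · have k1 : G A I J (m + 1) (j + 1) = G A I J m j + 1 := by
            rw [key, if_pos c3, c1, c2]; omega
          simp [c1, c2, c3, k1, fI, fJ]
        · have k1 : G A I J (m + 1) (j + 1) = G A I J m j := by
            rw [key, if_neg c3, c1, c2]; omega
          simp [c1, c2, c3, k1, fI, fJ]
      · have c2' : G A I J m (j + 1) = G A I J m j + 1 := by omega
        have k1 : G A I J (m + 1) (j + 1) = G A I J m j + 1 := by
          rw [key, c1, c2']; split_ifs <;> omega
        simp [c1, c2', k1, fI, fJ]
    · have c1' : G A I J (m + 1) j = G A I J m j + 1 := by omega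
      by_cases c2 : G A I J m (j + 1) = G A I J m j
      · have k1 : G A I J (m + 1) (j + 1) = G A I J m j + 1 := by
          rw [key, c1', c2]; split_ifs <;> omega
        simp [c1', c2, k1, fI, fJ]
      · have c2' : G A I J m (j + 1) = G A I J m j + 1 := by omega
        have k1 : G A I J (m + 1) (j + 1) = G A I J m j + 1 := by
          rw [key, c1', c2']; split_ifs <;> omega
        simp [c1', c2', k1, fI, fJ]

end Pool.Agent.V11321.OF
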