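import Pool.Agent.V11321.OF.Flow
import Pool.Agent.V11321.OF.FM

/-!
# From the box to marks
-/

set_option autoImplicit false
set_option linter.unusedSectionVars false
set_option linter.unusedVariables false

open Finset

namespace Pool.Agent.V11321.OF

variable {α β : Type*} [DecidableEq α] [DecidableEq β]

theorem EX_closed_aux (p : ℝ) (Ω : Finset β) (g : β → α) (hg : Set.InjOn g Ω)
    (F : Finset β → ℝ) :
    EX p (Ω.image g) (fun O => F (Ω.filter (fun e => g e ∉ O))) = EX (1 - p) Ω F := by
  induction Ω using Finset.induction_on generalizing F with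
  | empty => simp [EX_empty]
  | insert a Ω ha ih =>
    have hg' : Set.InjOn g Ω := hg.mono (by simp)
    have hga : g a ∉ Ω.image g := by
      intro h
      obtain ⟨b, hb, hba⟩ := mem_image.1 h
      have := hg (by simp [hb]) (by simp) hba
      exact ha (this ▸ hb)
    rw [image_insert, EX_insert p hga, EX_insert (1 - p) ha]
    have e1 : EX p (Ω.image g) (fun O => F ((insert a Ω).filter (fun e => g e ∉ O))) =
        EX (1 - p) Ω (fun C => F (insert a C)) := by
      rw [← ih hg' (fun C => F (insert a C))]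
      apply EX_congr
      intro O hO
      rw [filter_insert, if_pos (fun h => hga (hO h))]
    have e2 : EX p (Ω.image g) (fun O => F ((insert a Ω).filter (fun e => g e ∉ insert (g a) O))) =
        EX (1 - p) Ω F := by
      rw [← ih hg' F]
      apply EX_congr
      intro O hO
      rw [filter_insert, if_neg (by simp)]
      congr 1
      apply filter_congr
      intro e he
      have : g e ≠ g a := fun h => hga (h ▸ mem_image_of_mem g he)
      simp [this]
    rw [e1, e2]
    ring

theorem EX_closed (p : ℝ) {s : Finset α} {Ω : Finset β} (g : β → α) (hg : Set.InjOn g Ω)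
    (hs : ∀ e ∈ Ω, g e ∈ s) (F : Finset β → ℝ) :
    EX p s (fun O => F (Ω.filter (fun e => g e ∉ O))) = EX (1 - p) Ω F := by
  have hsub : Ω.image g ⊆ s := by
    intro x hx
    obtain ⟨e, he, rfl⟩ := mem_image.1 hx
    exact hs e he
  rw [← EX_closed_aux p Ω g hg F, ← EX_inter p hsub]
  apply EX_congr
  intro O _
  congr 1
  apply filter_congr
  intro e he
  simp [mem_image_of_mem g he]

/-- closed edges in the coordinates `(x, b)` -/
def Kset (M : ℕ) (O : Finset E) : Finset E :=
  ((range M ×ˢ range M) ×ˢ (univ : Finset Bool)).filter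
    (fun e => ((e.1.1, M - 1 - e.1.2), e.2) ∉ O)

theorem EX_Kset (p : ℝ) (M : ℕ) (F : Finset E → ℝ) :
    EX p (edges (M + 1)) (fun O => F (Kset M O)) =
      EX (1 - p) ((range M ×ˢ range M) ×ˢ (univ : Finset Bool)) F := by
  unfold Kset
  apply EX_closed p (fun e : E => ((e.1.1, M - 1 - e.1.2), e.2))
  · rintro ⟨⟨x, b⟩, d⟩ h ⟨⟨x', b'⟩, d'⟩ h' heq
    rw [Finset.mem_coe, mem_product, mem_product, mem_range, mem_range] at h h'
    simp only [Prod.mk.injEq] at heq h h' ⊢
    exact ⟨⟨heq.1.1, by omega⟩, heq.2⟩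
  · rintro ⟨⟨x, b⟩, d⟩ h
    rw [mem_product, mem_product, mem_range, mem_range] at h
    unfold edges
    rw [mem_filter, mem_product, mem_product, mem_range, mem_range]
    cases d <;> simp [head] at h ⊢ <;> omega

theorem EX_marks (q : ℝ) (s : Finset α) (f : Finset α → ℝ) :
    EX q (s ×ˢ (univ : Finset Bool))
      (fun K => f (s.filter (fun v => (v, false) ∈ K ∨ (v, true) ∈ K))) =
      EX (1 - (1 - q) ^ 2) s f := by
  induction s using Finset.induction_on generalizing f with
  | empty => simp [EX_empty]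
  | insert a s ha ih =>
    have hprod : (insert a s) ×ˢ (univ : Finset Bool) =
        insert (a, false) (insert (a, true) (s ×ˢ (univ : Finset Bool))) := by
      ext ⟨v, d⟩
      simp only [mem_product, mem_insert, mem_univ, and_true, Prod.mk.injEq]
      cases d <;> simp
    have h1 : (a, true) ∉ s ×ˢ (univ : Finset Bool) := by simp [ha]
    have h2 : (a, false) ∉ insert (a, true) (s ×ˢ (univ : Finset Bool)) := by simp [ha]
    rw [hprod, EX_insert q h2, EX_insert q h1, EX_insert q h1, EX_insert _ ha]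
    have hna : ∀ K, K ⊆ s ×ˢ (univ : Finset Bool) → ∀ d, (a, d) ∉ K := by
      intro K hK d h
      exact ha (mem_product.1 (hK h)).1
    have hs : ∀ (K L : Finset (α × Bool)), (∀ v ∈ s, ∀ d, (v, d) ∈ L ↔ (v, d) ∈ K) →
        s.filter (fun v => (v, false) ∈ L ∨ (v, true) ∈ L) =
        s.filter (fun v => (v, false) ∈ K ∨ (v, true) ∈ K) := by
      intro K L h
      apply filter_congr
      intro v hv
      rw [h v hv, h v hv]
    have e0 : EX q (s ×ˢ (univ : Finset Bool)) (fun K => f ((insert a s).filter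
        (fun v => (v, false) ∈ K ∨ (v, true) ∈ K))) = EX (1 - (1 - q) ^ 2) s f := by
      rw [← ih f]
      apply EX_congr
      intro K hK
      rw [filter_insert, if_neg (by simp [hna K hK])]
    have e1 : EX q (s ×ˢ (univ : Finset Bool)) (fun K => f ((insert a s).filter
        (fun v => (v, false) ∈ insert (a, true) K ∨ (v, true) ∈ insert (a, true) K))) =
        EX (1 - (1 - q) ^ 2) s (fun C => f (insert a C)) := by
      rw [← ih (fun C => f (insert a C))]
      apply EX_congr
      intro K hK
      rw [filter_insert, if_pos (by simp), hs K _]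
      intro v hv d
      have : v ≠ a := fun h => ha (h ▸ hv)
      simp [this]
    have e2 : EX q (s ×ˢ (univ : Finset Bool)) (fun K => f ((insert a s).filter
        (fun v => (v, false) ∈ insert (a, false) K ∨ (v, true) ∈ insert (a, false) K))) =
        EX (1 - (1 - q) ^ 2) s (fun C => f (insert a C)) := by
      rw [← ih (fun C => f (insert a C))]
      apply EX_congr
      intro K hK
      rw [filter_insert, if_pos (by simp), hs K _]
      intro v hv d
      have : v ≠ a := fun h => ha (h ▸ hv)
      simp [this]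
    have e3 : EX q (s ×ˢ (univ : Finset Bool)) (fun K => f ((insert a s).filter
        (fun v => (v, false) ∈ insert (a, false) (insert (a, true) K) ∨
          (v, true) ∈ insert (a, false) (insert (a, true) K)))) =
        EX (1 - (1 - q) ^ 2) s (fun C => f (insert a C)) := by
      rw [← ih (fun C => f (insert a C))]
      apply EX_congr
      intro K hK
      rw [filter_insert, if_pos (by simp), hs K _]
      intro v hv d
      have : v ≠ a := fun h => ha (h ▸ hv)
      simp [this]
    rw [e0, e1, e2, e3]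
    ring

/-- upper bound for the flow -/
theorem V_upper {M : ℕ} {O : Finset E} (hO : O ⊆ edges (M + 1)) :
    V (M + 1) O + G (marks (Kset M O) M) ∅ ∅ M M ≤ 2 * M + 2 := by
  obtain ⟨c, h1, h2, h3⟩ := exists_chain_int (marks (Kset M O) M) M
  have h4 : V (M + 1) O + c.length ≤ 2 * M := by
    apply V_le rfl hO h1
    · exact fun u hu => (h2 u hu).2
    · intro u hu
      have h5 := (h2 u hu).1
      unfold marks Kset at h5
      rw [mem_filter, mem_filter, mem_filter] at h5
      rcases h5.2 with h | h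
      · exact Or.inl h.2
      · exact Or.inr h.2
  omega

/-- best gain of a dual walk -/
noncomputable def hgt (K : Finset E) (M : ℕ) (x b : ℕ) : ℤ := sSup {g : ℤ | Reach K M (x, b) g}

theorem hgt_bdd (K : Finset E) (M x b : ℕ) : BddAbove {g : ℤ | Reach K M (x, b) g} :=
  ⟨(x : ℤ) + b, fun _ hg => reach_bound hg⟩

theorem le_hgt {K : Finset E} {M x b : ℕ} {g : ℤ} (h : Reach K M (x, b) g) :
    g ≤ hgt K M x b := le_csSup (hgt_bdd K M x b) h

theorem hgt_mem {K : Finset E} {M x b : ℕ} (hx : x < M) (hb : b < M) :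
    Reach K M (x, b) (hgt K M x b) := by
  obtain ⟨g, -, hg⟩ := reach_all K x b hx hb
  exact Int.csSup_mem ⟨g, hg⟩ (hgt_bdd K M x b)

theorem hgt_Hgt {M : ℕ} {O : Finset E} : Hgt M O (hgt (Kset M O) M) := by
  constructor
  · intro x b hx hb
    have := le_hgt (Reach.east x b _ (hgt_mem (K := Kset M O) (by omega) hb) hx)
    split_ifs at this <;> omega
  · intro x b hx hb
    have := le_hgt (Reach.west x b _ (hgt_mem (K := Kset M O) hx hb))
    omega
  · intro x b hx hb hO
    have h1 := le_hgt (Reach.east x b _ (hgt_mem (K := Kset M O) (by omega) hb) hx)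
    have h2 := le_hgt (Reach.west x b _ (hgt_mem (K := Kset M O) hx hb))
    have hK : ((x + 1, b), true) ∈ Kset M O := by
      unfold Kset
      rw [mem_filter, mem_product, mem_product, mem_range, mem_range]
      exact ⟨⟨⟨hx, hb⟩, mem_univ _⟩, hO⟩
    rw [if_pos hK] at h1
    omega
  · intro x b hx hb
    have := le_hgt (Reach.south x b _ (hgt_mem (K := Kset M O) hx (by omega)) hb)
    split_ifs at this <;> omega
  · intro x b hx hb
    have := le_hgt (Reach.north x b _ (hgt_mem (K := Kset M O) hx hb))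
    omega
  · intro x b hx hb hO
    have h1 := le_hgt (Reach.south x b _ (hgt_mem (K := Kset M O) hx (by omega)) hb)
    have h2 := le_hgt (Reach.north x b _ (hgt_mem (K := Kset M O) hx hb))
    have hK : ((x, b), false) ∈ Kset M O := by
      unfold Kset
      rw [mem_filter, mem_product, mem_product, mem_range, mem_range]
      exact ⟨⟨⟨hx, show b < M by omega⟩, mem_univ _⟩, hO⟩
    rw [if_pos hK] at h1
    omega

/-- lower bound for the flow -/
theorem V_lower {M : ℕ} (hM : 1 ≤ M) {O : Finset E} (hO : O ⊆ edges (M + 1)) {b : ℕ}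
    (hb : ¬ BadEv (Kset M O) b) :
    2 * (M : ℤ) - 2 - (G (marks (Kset M O) M) ∅ ∅ M M + b) ≤ V (M + 1) O := by
  have h1 := V_ge hM hO (hgt_Hgt (M := M) (O := O))
  have h2 : hgt (Kset M O) M (M - 1) (M - 1) ≤ G (marks (Kset M O) M) ∅ ∅ M M + b :=
    reach_le (filter_subset _ _) hb (hgt_mem (by omega) (by omega))
  have h3 : 0 ≤ hgt (Kset M O) M 0 0 := le_hgt Reach.zero
  omega

/-- mean of the maximal flow -/
noncomputable def EV (n : ℕ) (p : ℝ) : ℝ := EX p (edges n) (fun O => (V n O : ℝ))

theorem EX_G (p : ℝ) (M : ℕ) :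
    EX p (edges (M + 1)) (fun O => (G (marks (Kset M O) M) ∅ ∅ M M : ℝ)) = EL (1 - p ^ 2) M := by
  rw [EX_Kset p M (fun K => (G (marks K M) ∅ ∅ M M : ℝ))]
  unfold marks EL
  rw [EX_marks (1 - p) (range M ×ˢ range M) (fun A => (G A ∅ ∅ M M : ℝ))]
  congr 2
  ring

theorem EV_le {p : ℝ} (h0 : 0 ≤ p) (h1 : p ≤ 1) (M : ℕ) :
    EV (M + 1) p + EL (1 - p ^ 2) M ≤ 2 * M + 2 := by
  unfold EV
  rw [← EX_G, ← EX_add]
  refine (EX_mono h0 h1 (g := fun _ => 2 * (M : ℝ) + 2) ?_).trans (le_of_eq (EX_const p _ _))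
  intro O hO
  exact_mod_cast V_upper hO

theorem EV_ge {p : ℝ} (h0 : 0 ≤ p) (h1 : p ≤ 1) (M : ℕ) (hM : 1 ≤ M) (b : ℕ) :
    2 * (M : ℝ) - 2 - b - 2 * M * EX (1 - p) ((range M ×ˢ range M) ×ˢ (univ : Finset Bool))
      (fun K => ind (BadEv K b)) ≤ EV (M + 1) p + EL (1 - p ^ 2) M := by
  unfold EV
  rw [← EX_G, ← EX_add, ← EX_Kset p M (fun K => ind (BadEv K b)), ← EX_mul,
    ← EX_const p (edges (M + 1)) (2 * (M : ℝ) - 2 - b), ← EX_sub]
  apply EX_mono h0 h1
  intro O hO
  have hv : (0 : ℝ) ≤ V (M + 1) O := Nat.cast_nonneg _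
  have hg : (0 : ℝ) ≤ G (marks (Kset M O) M) ∅ ∅ M M := Nat.cast_nonneg _
  have hb0 : (0 : ℝ) ≤ b := Nat.cast_nonneg _
  by_cases hb : BadEv (Kset M O) b
  · rw [ind_true hb]
    linarith
  · rw [ind_false hb]
    have h2 := V_lower hM hO hb
    have h3 : (2 * (M : ℝ) - 2 - (G (marks (Kset M O) M) ∅ ∅ M M + b)) ≤ V (M + 1) O := by
      exact_mod_cast h2
    linarith

end Pool.Agent.V11321.OF
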