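import Pool.Agent.V11321.OF.Chain
import Pool.Agent.V11321.OF.Defs

/-!
# Dual walks

Faces `(x, b)` of an `M × M` array; the edge `((x, b), true)` separates the faces `(x - 1, b)` and
`(x, b)`, the edge `((x, b), false)` separates the faces `(x, b)` and `(x, b + 1)`.  A dual walk
gains one for each edge of `K` crossed in the increasing direction, and pays one for each step in the
decreasing direction.
-/

set_option autoImplicit false
set_option linter.unusedSectionVars false
set_option linter.unusedVariables false

open Finset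

namespace Pool.Agent.V11321.OF

/-- `Reach K M f g`: some dual walk from the corner `(0, 0)` to the face `f` has gain `g` -/
inductive Reach (K : Finset E) (M : ℕ) : ℕ × ℕ → ℤ → Prop
  | zero : Reach K M (0, 0) 0
  | east (x b : ℕ) (g : ℤ) : Reach K M (x, b) g → x + 1 < M →
      Reach K M (x + 1, b) (g + if ((x + 1, b), true) ∈ K then 1 else 0)
  | south (x b : ℕ) (g : ℤ) : Reach K M (x, b) g → b + 1 < M →
      Reach K M (x, b + 1) (g + if ((x, b), false) ∈ K then 1 else 0)
  | west (x b : ℕ) (g : ℤ) : Reach K M (x + 1, b) g → Reach K M (x, b) (g - 1)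
  | north (x b : ℕ) (g : ℤ) : Reach K M (x, b + 1) g → Reach K M (x, b) (g - 1)

/-- face before crossing an edge -/
def bef (e : E) : ℕ × ℕ := if e.2 then (e.1.1 - 1, e.1.2) else e.1

/-- face after crossing an edge -/
def aft (e : E) : ℕ × ℕ := if e.2 then e.1 else (e.1.1, e.1.2 + 1)

/-- number of decreasing steps needed -/
def cst (f g : ℕ × ℕ) : ℕ := (f.1 - g.1) + (f.2 - g.2)

/-- the cost of going to a face from the end of a list of crossings (most recent crossing first) -/
def cto : List E → ℕ × ℕ → ℕ
  | [], _ => 0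
  | e :: _, f => cst (aft e) f

/-- number of crossings minus total cost -/
def sc : List E → ℤ
  | [] => 0
  | e :: l => sc l + 1 - cto l (bef e)

/-- number of consecutive pairs that are not strictly increasing in both coordinates -/
def bad : List E → ℕ
  | [] => 0
  | [_] => 0
  | e' :: e :: l => bad (e :: l) + if e.1.1 < e'.1.1 ∧ e.1.2 < e'.1.2 then 0 else 1

/-- the edge can be crossed -/
def Cr (e : E) : Prop := e.2 = true → 1 ≤ e.1.1

theorem Cr_aft {e : E} (h : Cr e) : (aft e).1 + (aft e).2 = (bef e).1 + (bef e).2 + 1 := by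
  obtain ⟨⟨x, b⟩, d⟩ := e
  unfold Cr at h
  unfold aft bef
  cases d
  · simp; omega
  · simp at h ⊢; omega

theorem le_cst (f g : ℕ × ℕ) : (f.1 : ℤ) + f.2 - (g.1 + g.2) ≤ cst f g := by
  unfold cst
  push_cast
  omega

theorem cst_self (f : ℕ × ℕ) : cst f f = 0 := by simp [cst]

theorem reach_bound {K : Finset E} {M : ℕ} {f : ℕ × ℕ} {g : ℤ} (h : Reach K M f g) :
    g ≤ f.1 + f.2 := by
  induction h with
  | zero => simp
  | east x b g _ _ ih => dsimp only at ih ⊢; push_cast; split_ifs <;> omega
  | south x b g _ _ ih => dsimp only at ih ⊢; push_cast; split_ifs <;> omega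
  | west x b g _ ih => dsimp only at ih ⊢; push_cast at ih; omega
  | north x b g _ ih => dsimp only at ih ⊢; push_cast at ih; omega

theorem reach_lt {K : Finset E} {M : ℕ} (hM : 0 < M) {f : ℕ × ℕ} {g : ℤ} (h : Reach K M f g) :
    f.1 < M ∧ f.2 < M := by
  induction h with
  | zero => exact ⟨hM, hM⟩
  | east x b g _ h' ih => exact ⟨h', ih.2⟩
  | south x b g _ h' ih => exact ⟨ih.1, h'⟩
  | west x b g _ ih => dsimp only at ih ⊢; omega
  | north x b g _ ih => dsimp only at ih ⊢; omega

theorem reach_all (K : Finset E) {M : ℕ} (x b : ℕ) (hx : x < M) (hb : b < M) :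
    ∃ g : ℤ, 0 ≤ g ∧ Reach K M (x, b) g := by
  induction x with
  | zero =>
    induction b with
    | zero => exact ⟨0, le_rfl, Reach.zero⟩
    | succ b ih =>
      obtain ⟨g, h0, h⟩ := ih (by omega)
      exact ⟨_, by split_ifs <;> omega, Reach.south 0 b g h hb⟩
  | succ x ih =>
    obtain ⟨g, h0, h⟩ := ih (by omega)
    exact ⟨_, by split_ifs <;> omega, Reach.east x b g h hx⟩

/-- a dual walk yields a list of crossings -/
theorem reach_list {K : Finset E} {M : ℕ} {f : ℕ × ℕ} {g : ℤ} (h : Reach K M f g) :
    ∃ l : List E, (∀ e ∈ l, e ∈ K ∧ Cr e) ∧ g ≤ sc l - cto l f := by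
  induction h with
  | zero => exact ⟨[], by simp, by simp [sc, cto]⟩
  | east x b g _ h' ih =>
    obtain ⟨l, h1, h2⟩ := ih
    split_ifs with hK
    · refine ⟨((x + 1, b), true) :: l, ?_, ?_⟩
      · intro e he
        rcases List.mem_cons.1 he with rfl | he
        · exact ⟨hK, fun _ => by simp⟩
        · exact h1 e he
      · have e1 : bef ((x + 1, b), true) = (x, b) := by simp [bef]
        have e2 : cto (((x + 1, b), true) :: l) (x + 1, b) = 0 := by
          simp [cto, aft, cst]
        rw [sc, e1, e2]
        push_cast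
        omega
    · refine ⟨l, h1, ?_⟩
      have : cto l (x + 1, b) ≤ cto l (x, b) := by
        cases l with
        | nil => simp [cto]
        | cons e l => simp only [cto, cst]; omega
      omega
  | south x b g _ h' ih =>
    obtain ⟨l, h1, h2⟩ := ih
    split_ifs with hK
    · refine ⟨((x, b), false) :: l, ?_, ?_⟩
      · intro e he
        rcases List.mem_cons.1 he with rfl | he
        · exact ⟨hK, fun h => by simp at h⟩
        · exact h1 e he
      · have e1 : bef ((x, b), false) = (x, b) := by simp [bef]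
        have e2 : cto (((x, b), false) :: l) (x, b + 1) = 0 := by
          simp [cto, aft, cst]
        rw [sc, e1, e2]
        push_cast
        omega
    · refine ⟨l, h1, ?_⟩
      have : cto l (x, b + 1) ≤ cto l (x, b) := by
        cases l with
        | nil => simp [cto]
        | cons e l => simp only [cto, cst]; omega
      omega
  | west x b g _ ih =>
    obtain ⟨l, h1, h2⟩ := ih
    refine ⟨l, h1, ?_⟩
    have : cto l (x, b) ≤ cto l (x + 1, b) + 1 := by
      cases l with
      | nil => simp [cto]
      | cons e l => simp only [cto, cst]; omega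
    omega
  | north x b g _ ih =>
    obtain ⟨l, h1, h2⟩ := ih
    refine ⟨l, h1, ?_⟩
    have : cto l (x, b) ≤ cto l (x, b + 1) + 1 := by
      cases l with
      | nil => simp [cto]
      | cons e l => simp only [cto, cst]; omega
    omega

/-- `sc` minus the potential of the last face does not increase -/
theorem sc_pot (m l : List E) (a c : E) (hm : ∀ e ∈ m, Cr e) (ha : Cr a) (hc : Cr c) :
    sc (c :: (m ++ a :: l)) - ((aft c).1 + (aft c).2) ≤
      sc (a :: l) - ((aft a).1 + (aft a).2) := by
  have step : ∀ (e' e : E) (l : List E), Cr e' →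
      sc (e' :: e :: l) - ((aft e').1 + (aft e').2) ≤ sc (e :: l) - ((aft e).1 + (aft e).2) := by
    intro e' e l h
    rw [sc]
    have h1 := Cr_aft h
    have h2 := le_cst (aft e) (bef e')
    have h3 : cto (e :: l) (bef e') = cst (aft e) (bef e') := rfl
    rw [h3]
    omega
  induction m generalizing c with
  | nil => exact step c a l hc
  | cons d m ih =>
    have h1 := ih d (fun e he => hm e (List.mem_cons_of_mem d he)) (hm d List.mem_cons_self)
    have h2 := step c d (m ++ a :: l) hc
    simp only [List.cons_append]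
    omega

/-- repetitions can be removed -/
theorem nodup_list (l : List E) (hl : ∀ e ∈ l, Cr e) : ∃ l' : List E, l'.Nodup ∧
    (∀ e ∈ l', e ∈ l) ∧ (∀ f, cto l' f = cto l f) ∧ sc l ≤ sc l' := by
  induction l with
  | nil => exact ⟨[], List.nodup_nil, by simp, fun _ => rfl, le_rfl⟩
  | cons a l ih =>
    obtain ⟨l', h1, h2, h3, h4⟩ := ih (fun e he => hl e (List.mem_cons_of_mem a he))
    have h5 : sc (a :: l) ≤ sc (a :: l') := by
      rw [sc, sc, h3]; omega
    by_cases ha : a ∈ l'
    · obtain ⟨m, l₂, rfl⟩ := List.append_of_mem ha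
      have hsuf : (a :: l₂).Nodup := (List.nodup_append.1 h1).2.1
      refine ⟨a :: l₂, hsuf, ?_, fun _ => rfl, ?_⟩
      · intro e he
        rcases List.mem_cons.1 he with rfl | he'
        · exact List.mem_cons_self
        · exact List.mem_cons_of_mem a (h2 e (List.mem_append_right m he))
      · have hCa := hl a List.mem_cons_self
        have h6 := sc_pot m l₂ a a
          (fun e he => hl e (List.mem_cons_of_mem a (h2 e (List.mem_append_left _ he)))) hCa hCa
        omega
    · refine ⟨a :: l', List.nodup_cons.2 ⟨ha, h1⟩, ?_, fun _ => rfl, h5⟩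
      intro e he
      rcases List.mem_cons.1 he with rfl | he'
      · exact List.mem_cons_self
      · exact List.mem_cons_of_mem a (h2 e he')

theorem cst_ge (e e' : E) : (e.1.1 - e'.1.1) + (e.1.2 - e'.1.2) ≤ cst (aft e) (bef e') := by
  obtain ⟨⟨x, b⟩, d⟩ := e
  obtain ⟨⟨x', b'⟩, d'⟩ := e'
  unfold cst aft bef
  cases d <;> cases d' <;> simp <;> omega

/-- the deficit argument -/
theorem deficit (e : E) (l : List E) : ∃ (X Y : ℕ) (c : List (ℕ × ℕ)),
    (∀ u ∈ c, ∃ e' ∈ e :: l, e'.1 = u) ∧ Dec c ∧ (∀ u ∈ c, u.1 ≤ X ∧ u.2 ≤ Y) ∧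
    e.1.1 ≤ X ∧ e.1.2 ≤ Y ∧ (∀ Z, (∀ e' ∈ e :: l, e'.1.1 < Z) → X < Z) ∧
    sc (e :: l) + (X - e.1.1 : ℕ) + (Y - e.1.2 : ℕ) ≤ c.length + bad (e :: l) := by
  induction l generalizing e with
  | nil =>
    refine ⟨e.1.1, e.1.2, [e.1], ?_, ?_, ?_, le_rfl, le_rfl, ?_, ?_⟩
    · intro u hu
      rw [List.mem_singleton] at hu
      exact ⟨e, List.mem_cons_self, hu.symm⟩
    · exact List.pairwise_singleton _ _
    · intro u hu
      rw [List.mem_singleton] at hu
      rw [hu]
      exact ⟨le_rfl, le_rfl⟩
    · intro Z hZ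
      exact hZ e List.mem_cons_self
    · simp [sc, cto, bad]
  | cons e₀ l ih =>
    obtain ⟨X, Y, c, h1, h2, h3, h4, h5, h6, h7⟩ := ih e₀
    have hmem : ∀ u ∈ c, ∃ e' ∈ e :: e₀ :: l, e'.1 = u := by
      intro u hu
      obtain ⟨e', he', heq⟩ := h1 u hu
      exact ⟨e', List.mem_cons_of_mem e he', heq⟩
    have hsc : sc (e :: e₀ :: l) = sc (e₀ :: l) + 1 - cst (aft e₀) (bef e) := rfl
    have hc := cst_ge e₀ e
    by_cases hg : e₀.1.1 < e.1.1 ∧ e₀.1.2 < e.1.2
    · have hb : bad (e :: e₀ :: l) = bad (e₀ :: l) := by rw [bad, if_pos hg]; rfl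
      by_cases hk : X < e.1.1 ∧ Y < e.1.2
      · refine ⟨e.1.1, e.1.2, e.1 :: c, ?_, ?_, ?_, le_rfl, le_rfl, ?_, ?_⟩
        · intro u hu
          rcases List.mem_cons.1 hu with rfl | hu
          · exact ⟨e, List.mem_cons_self, rfl⟩
          · exact hmem u hu
        · refine List.pairwise_cons.2 ⟨fun v hv => ?_, h2⟩
          have := h3 v hv
          omega
        · intro u hu
          rcases List.mem_cons.1 hu with rfl | hu
          · exact ⟨le_rfl, le_rfl⟩
          · have := h3 u hu
            omega
        · intro Z hZ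
          exact hZ e List.mem_cons_self
        · rw [hsc, hb, List.length_cons]
          push_cast
          omega
      · refine ⟨max X e.1.1, max Y e.1.2, c, hmem, h2, ?_, le_max_right _ _, le_max_right _ _,
          ?_, ?_⟩
        · intro u hu
          have := h3 u hu
          omega
        · intro Z hZ
          have a1 := hZ e List.mem_cons_self
          have a2 := h6 Z (fun e' he' => hZ e' (List.mem_cons_of_mem e he'))
          omega
        · rw [hsc, hb]
          omega
    · have hb : bad (e :: e₀ :: l) = bad (e₀ :: l) + 1 := by rw [bad, if_neg hg]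
      refine ⟨max X e.1.1, max Y e.1.2, c, hmem, h2, ?_, le_max_right _ _, le_max_right _ _,
          ?_, ?_⟩
      · intro u hu
        have := h3 u hu
        omega
      · intro Z hZ
        have a1 := hZ e List.mem_cons_self
        have a2 := h6 Z (fun e' he' => hZ e' (List.mem_cons_of_mem e he'))
        omega
      · rw [hsc, hb]
        push_cast
        omega

/-- sites with a closed outgoing edge -/
def marks (K : Finset E) (M : ℕ) : Finset (ℕ × ℕ) :=
  (range M ×ˢ range M).filter (fun v => (v, false) ∈ K ∨ (v, true) ∈ K)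

/-- `BadEv K b`: there is a list of distinct edges of `K` of nonnegative score with `b` bad pairs -/
def BadEv (K : Finset E) (b : ℕ) : Prop :=
  ∃ l : List E, l.Nodup ∧ (∀ e ∈ l, e ∈ K) ∧ 0 ≤ sc l ∧ b ≤ bad l

theorem reach_le {K : Finset E} {M : ℕ} (hK : K ⊆ (range M ×ˢ range M) ×ˢ univ) {b : ℕ}
    (hb : ¬ BadEv K b) {f : ℕ × ℕ} {g : ℤ} (h : Reach K M f g) :
    g ≤ G (marks K M) ∅ ∅ M M + b := by
  obtain ⟨l₀, h1, h2⟩ := reach_list h
  obtain ⟨l, k1, k2, -, k4⟩ := nodup_list l₀ (fun e he => (h1 e he).2)
  have hlK : ∀ e ∈ l, e ∈ K := fun e he => (h1 e (k2 e he)).1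
  have hg : g ≤ sc l := by
    have : (0 : ℤ) ≤ cto l₀ f := Nat.cast_nonneg _
    omega
  by_cases hs : 0 ≤ sc l
  · have hbad : bad l < b := by
      by_contra hc
      exact hb ⟨l, k1, hlK, hs, by omega⟩
    have hlen : sc l ≤ G (marks K M) ∅ ∅ M M + bad l := by
      cases l with
      | nil => simp [sc]
      | cons e l =>
        obtain ⟨X, Y, c, c1, c2, -, -, -, -, c7⟩ := deficit e l
        have hc : c.length ≤ G (marks K M) ∅ ∅ M M := by
          apply length_le_G c2
          · intro u hu
            obtain ⟨e', he', rfl⟩ := c1 u hu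
            have := hlK e' he'
            have h3 := hK this
            rw [mem_product] at h3
            unfold marks
            rw [mem_filter]
            refine ⟨h3.1, ?_⟩
            obtain ⟨v, d⟩ := e'
            cases d
            · exact Or.inl this
            · exact Or.inr this
          · intro u hu
            obtain ⟨e', he', rfl⟩ := c1 u hu
            have h3 := hK (hlK e' he')
            rw [mem_product, mem_product, mem_range, mem_range] at h3
            exact h3.1
        omega
    omega
  · have : (0 : ℤ) ≤ G (marks K M) ∅ ∅ M M := Nat.cast_nonneg _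
    omega

end Pool.Agent.V11321.OF
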